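import Pool.Agent.Q2T.Defs

/-! Charts of the torus (helper99). -/

set_option autoImplicit false

open Set Filter Topology

namespace Q2T

/-- the local inverse of `ℝ → ℝ/ℤ` around `r` -/
noncomputable def cChart (r : ℝ) : OpenPartialHomeomorph (AddCircle (1 : ℝ)) ℝ :=
  (AddCircle.openPartialHomeomorphCoe (1 : ℝ) (r - 1 / 2)).symm

theorem cChart_mem (r : ℝ) : (r : AddCircle (1 : ℝ)) ∈ (cChart r).source := by
  have h : r ∈ (AddCircle.openPartialHomeomorphCoe (1 : ℝ) (r - 1 / 2)).source := by
    rw [AddCircle.openPartialHomeomorphCoe_source]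
    constructor <;> linarith
  exact (AddCircle.openPartialHomeomorphCoe (1 : ℝ) (r - 1 / 2)).map_source h

/-- the plane as a euclidean space -/
noncomputable def planeHomeo : ℝ × ℝ ≃ₜ EuclideanSpace ℝ (Fin 2) :=
  (Homeomorph.finTwoArrow (X := ℝ)).symm.trans
    (EuclideanSpace.equiv (Fin 2) ℝ).toHomeomorph.symm

/-- the chart of the torus around the image of `(a, b)` -/
noncomputable def tChart (q : ℝ × ℝ) : OpenPartialHomeomorph T (EuclideanSpace ℝ (Fin 2)) :=
  ((cChart q.1).prod (cChart q.2)).transHomeomorph planeHomeo

theorem exists_coe (u : AddCircle (1 : ℝ)) : ∃ r : ℝ, (r : AddCircle (1 : ℝ)) = u :=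
  QuotientAddGroup.mk_surjective u

/-- charts of the torus: local inverses of the covering `EuclideanSpace ℝ (Fin 2) → T` -/
noncomputable def charted : ChartedSpace (EuclideanSpace ℝ (Fin 2)) T where
  atlas := range tChart
  chartAt x := tChart ((exists_coe x.1).choose, (exists_coe x.2).choose)
  mem_chart_source x := by
    have h1 := (exists_coe x.1).choose_spec
    have h2 := (exists_coe x.2).choose_spec
    show x ∈ ((cChart (exists_coe x.1).choose).prod (cChart (exists_coe x.2).choose)).source
    refine ⟨?_, ?_⟩
    · have := cChart_mem (exists_coe x.1).choose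
      rwa [h1] at this
    · have := cChart_mem (exists_coe x.2).choose
      rwa [h2] at this
  chart_mem_atlas _ := mem_range_self _

theorem connected_T : ConnectedSpace T := inferInstance

theorem compact_T : CompactSpace T := inferInstance

end Q2T
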