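import Pool.Agent.Q2T.Spiral

/-! The pair `(x, y)` is not in the closure of `R_K`. -/

set_option autoImplicit false

open Set Filter Topology

namespace Q2T



theorem conn_arc (k : ℕ) (M : Set T) (hM : IsPreconnected M) (hMK : M ⊆ EE '' GG {cc k})
    (hx : (M ∩ Ux (1 / 2)).Nonempty) (hy : (M ∩ Uy (1 / 2)).Nonempty) :
    EE ((k : ℝ) + 1, 0) ∈ M := by
  have hGB : GG {cc k} ⊆ BB := fun p hp => hp.1
  have hA : IsClosed (EE '' (GG {cc k} ∩ {p | p.2 ≤ 0})) := by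
    apply IsCompact.isClosed
    apply IsCompact.image_of_continuousOn
    · exact (GG_arc_compact k).inter_right (isClosed_le continuous_snd continuous_const)
    · exact EE_continuousOn.mono (fun p hp => hGB hp.1)
  have hB : IsClosed (EE '' (GG {cc k} ∩ {p | 0 ≤ p.2})) := by
    apply IsCompact.isClosed
    apply IsCompact.image_of_continuousOn
    · exact (GG_arc_compact k).inter_right (isClosed_le continuous_const continuous_snd)
    · exact EE_continuousOn.mono (fun p hp => hGB hp.1)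
  have hcov : M ⊆ EE '' (GG {cc k} ∩ {p | p.2 ≤ 0}) ∪ EE '' (GG {cc k} ∩ {p | 0 ≤ p.2}) := by
    intro z hz
    obtain ⟨p, hp, rfl⟩ := hMK hz
    rcases le_total p.2 0 with h | h
    · exact Or.inl ⟨p, ⟨hp, h⟩, rfl⟩
    · exact Or.inr ⟨p, ⟨hp, h⟩, rfl⟩
  have h1 : (M ∩ EE '' (GG {cc k} ∩ {p | p.2 ≤ 0})).Nonempty := by
    obtain ⟨z, hz, p, ⟨hpB, _, hp2⟩, rfl⟩ := hx
    obtain ⟨q, hq, hqp⟩ := hMK hz
    have : q = p := EE_injOn (hGB hq) hpB hqp
    subst this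
    refine ⟨_, hz, q, ⟨hq, ?_⟩, rfl⟩
    show q.2 ≤ 0
    linarith
  have h2 : (M ∩ EE '' (GG {cc k} ∩ {p | 0 ≤ p.2})).Nonempty := by
    obtain ⟨z, hz, p, ⟨hpB, _, hp2⟩, rfl⟩ := hy
    obtain ⟨q, hq, hqp⟩ := hMK hz
    have : q = p := EE_injOn (hGB hq) hpB hqp
    subst this
    refine ⟨_, hz, q, ⟨hq, ?_⟩, rfl⟩
    show 0 ≤ q.2
    linarith
  obtain ⟨z, hz, ⟨a, ⟨ha, ha2⟩, rfl⟩, ⟨b, ⟨hb, hb2⟩, hba⟩⟩ :=
    (isPreconnected_closed_iff.1 hM) _ _ hA hB hcov h1 h2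
  have hab : b = a := EE_injOn (hGB hb) (hGB ha) hba
  subst hab
  have h0 : b.2 = 0 := le_antisymm ha2 hb2
  have hb1 : 0 ≤ b.1 := hb.1.1
  have hm : mm b = cc k := hb.2
  have hk : (0 : ℝ) ≤ k := Nat.cast_nonneg k
  have hb' : b.1 = (k : ℝ) + 1 := by
    unfold mm cc at hm
    rw [h0, abs_zero] at hm
    have hpos : (0 : ℝ) < 1 - 1 / ((k : ℝ) + 2) := by
      have : 1 / ((k : ℝ) + 2) < 1 := by
        rw [div_lt_one (by linarith)]
        linarith
      linarith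
    have h3 : 1 - 1 / (b.1 + 1) = 1 - 1 / ((k : ℝ) + 2) := by
      rcases max_cases (0 : ℝ) (1 - 1 / (b.1 + 1)) with h | h
      · rw [h.1] at hm
        linarith
      · rw [h.1] at hm
        exact hm
    have h4 : 1 / (b.1 + 1) = 1 / ((k : ℝ) + 2) := by linarith
    have h5 : b.1 + 1 = (k : ℝ) + 2 := by
      have := congrArg (fun x : ℝ => x⁻¹) h4
      simpa using this
    linarith
  have : b = ((k : ℝ) + 1, 0) := Prod.ext hb' h0
  rw [← this]
  exact hz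

theorem GG_one (p : ℝ × ℝ) (hp : p ∈ GG {1}) : p.2 = -1 ∨ p.2 = 1 := by
  obtain ⟨⟨h0, h1⟩, hm⟩ := hp
  have hm : mm p = 1 := hm
  unfold mm at hm
  have h2 : 1 - 1 / (p.1 + 1) < 1 := by
    have : 0 < 1 / (p.1 + 1) := by positivity
    linarith
  have h3 : |p.2| = 1 := by
    rcases max_cases |p.2| (1 - 1 / (p.1 + 1)) with h | h
    · rw [h.1] at hm
      exact hm
    · rw [h.1] at hm
      linarith
  rcases abs_eq (by norm_num : (0:ℝ) ≤ 1) |>.1 h3 with h | h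
  · exact Or.inr h
  · exact Or.inl h

theorem conn_big (M : Set T) (hM : IsPreconnected M) (hMK : M ⊆ KS {1})
    (hx : (M ∩ Ux (1 / 2)).Nonempty) (hy : (M ∩ Uy (1 / 2)).Nonempty) (τ : ℝ) (hτ : 1 / 2 ≤ τ) :
    EE (τ, -1) ∈ M := by
  have hAB : ({p : ℝ × ℝ | 0 ≤ p.1 ∧ p.1 ≤ τ ∧ p.2 = -1}) ⊆ BB := by
    rintro p ⟨h0, _, h2⟩
    refine ⟨h0, ?_⟩
    rw [h2]
    norm_num
  have hA : IsClosed (EE '' {p : ℝ × ℝ | 0 ≤ p.1 ∧ p.1 ≤ τ ∧ p.2 = -1}) := by
    apply IsCompact.isClosed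
    apply IsCompact.image_of_continuousOn
    · have : {p : ℝ × ℝ | 0 ≤ p.1 ∧ p.1 ≤ τ ∧ p.2 = -1} = Icc (0 : ℝ) τ ×ˢ {(-1 : ℝ)} := by
        ext p
        simp [and_assoc]
      rw [this]
      exact isCompact_Icc.prod isCompact_singleton
    · exact EE_continuousOn.mono hAB
  have hBB : ({p : ℝ × ℝ | p ∈ BB ∧ ((p.2 = -1 ∧ τ ≤ p.1) ∨ p.2 = 1)}) ⊆ BB := fun p hp => hp.1
  have hBBc : IsClosed BB := by
    unfold BB
    exact (isClosed_le continuous_const continuous_fst).inter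
      (isClosed_le continuous_snd.abs continuous_const)
  have hBc : IsClosed {p : ℝ × ℝ | p ∈ BB ∧ ((p.2 = -1 ∧ τ ≤ p.1) ∨ p.2 = 1)} := by
    apply hBBc.inter
    apply IsClosed.union
    · exact (isClosed_eq continuous_snd continuous_const).inter
        (isClosed_le continuous_const continuous_fst)
    · exact isClosed_eq continuous_snd continuous_const
  have hB := isClosed_union _ hBc hBB
  have key : ∀ p : ℝ × ℝ, p ∈ BB → EE p ∈ M → p.2 = -1 ∨ p.2 = 1 := by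
    intro p hp hpM
    rcases hMK hpM with h | ⟨q, hq, hqp⟩
    · exact absurd (EE_mem p hp) h
    · have : q = p := EE_injOn hq.1 hp hqp
      subst this
      exact GG_one q hq
  have hcov : M ⊆ EE '' {p : ℝ × ℝ | 0 ≤ p.1 ∧ p.1 ≤ τ ∧ p.2 = -1} ∪
      (DDᶜ ∪ EE '' {p : ℝ × ℝ | p ∈ BB ∧ ((p.2 = -1 ∧ τ ≤ p.1) ∨ p.2 = 1)}) := by
    intro z hz
    rcases hMK hz with h | ⟨p, hp, rfl⟩
    · exact Or.inr (Or.inl h)
    · rcases GG_one p hp with h | h
      · rcases le_total p.1 τ with h' | h'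
        · exact Or.inl ⟨p, ⟨hp.1.1, h', h⟩, rfl⟩
        · exact Or.inr (Or.inr ⟨p, ⟨hp.1, Or.inl ⟨h, h'⟩⟩, rfl⟩)
      · exact Or.inr (Or.inr ⟨p, ⟨hp.1, Or.inr h⟩, rfl⟩)
  have h1 : (M ∩ EE '' {p : ℝ × ℝ | 0 ≤ p.1 ∧ p.1 ≤ τ ∧ p.2 = -1}).Nonempty := by
    obtain ⟨z, hz, p, ⟨hpB, hp1, hp2⟩, rfl⟩ := hx
    refine ⟨_, hz, p, ⟨hpB.1, by linarith, ?_⟩, rfl⟩
    rcases key p hpB hz with h | h
    · exact h
    · linarith
  have h2 : (M ∩ (DDᶜ ∪ EE '' {p : ℝ × ℝ | p ∈ BB ∧ ((p.2 = -1 ∧ τ ≤ p.1) ∨ p.2 = 1)})).Nonempty := by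
    obtain ⟨z, hz, p, ⟨hpB, hp1, hp2⟩, rfl⟩ := hy
    refine ⟨_, hz, Or.inr ⟨p, ⟨hpB, Or.inr ?_⟩, rfl⟩⟩
    rcases key p hpB hz with h | h
    · linarith
    · exact h
  obtain ⟨z, hz, ⟨a, ⟨ha0, ha1, ha2⟩, rfl⟩, hzB⟩ :=
    (isPreconnected_closed_iff.1 hM) _ _ hA hB hcov h1 h2
  have haB : a ∈ BB := hAB ⟨ha0, ha1, ha2⟩
  rcases hzB with h | ⟨b, ⟨hb, hb2⟩, hba⟩
  · exact absurd (EE_mem a haB) h
  · have hab : b = a := EE_injOn hb haB hba
    subst hab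
    have h3 : τ ≤ b.1 := by
      rcases hb2 with h | h
      · exact h.2
      · linarith
    have : b = (τ, -1) := Prod.ext (le_antisymm ha1 h3) ha2
    rw [← this]
    exact hz


theorem cis_add_nat (t : ℝ) (n : ℕ) : cis (t + n) = cis t := by
  unfold cis
  have : (((2 * Real.pi * (t + n) : ℝ) : ℂ) * Complex.I) =
      (((2 * Real.pi * t : ℝ) : ℂ) * Complex.I) + n * (2 * Real.pi * Complex.I) := by
    push_cast
    ring
  rw [this, Complex.exp_add, Complex.exp_nat_mul_two_pi_mul_I, mul_one]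

/-- the circle is in the closure of the spiral -/
theorem sphere_sub (M : Set T) (hMc : IsClosed M) (h : ∀ τ : ℝ, 1 / 2 ≤ τ → EE (τ, -1) ∈ M) :
    pr '' Metric.sphere 0 (1 / 10) ⊆ M := by
  rintro _ ⟨z, hz, rfl⟩
  have hzn : ‖z‖ = 1 / 10 := by simpa using hz
  -- z = (1/10) cis t
  set t : ℝ := Complex.arg z / (2 * Real.pi) with ht
  have hzt : z = ((1 / 10 : ℝ) : ℂ) * cis t := by
    have h1 := Complex.norm_mul_exp_arg_mul_I z
    rw [hzn] at h1
    rw [← h1]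
    unfold cis
    congr 3
    rw [ht]
    norm_cast
    field_simp
  have hlim : Tendsto (fun n : ℕ => EE (t + n, -1)) atTop (𝓝 (pr z)) := by
    unfold EE
    apply (pr_continuous.tendsto z).comp
    have h2 : ∀ n : ℕ, E0 (t + n, -1) = (((1 - 1 / (t + n + (-1) / 4 + 2)) / 10 : ℝ) : ℂ) * cis t := by
      intro n
      unfold E0
      rw [cis_add_nat]
    simp_rw [h2]
    rw [hzt]
    apply Tendsto.mul_const
    apply (Complex.continuous_ofReal.tendsto _).comp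
    have h3 : Tendsto (fun n : ℕ => 1 / (t + n + (-1) / 4 + 2)) atTop (𝓝 0) := by
      apply Tendsto.const_div_atTop
      apply tendsto_atTop_add_const_right
      apply tendsto_atTop_add_const_right
      apply tendsto_atTop_add_const_left
      exact tendsto_natCast_atTop_atTop
    have h4 : Tendsto (fun n : ℕ => (1 - 1 / (t + n + (-1) / 4 + 2)) / 10) atTop
        (𝓝 ((1 - 0) / 10)) := (h3.const_sub 1).div_const 10
    rw [sub_zero] at h4
    exact h4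
  apply hMc.mem_of_tendsto hlim
  have : ∀ᶠ n : ℕ in atTop, 1 / 2 ≤ t + n := by
    have h5 : Tendsto (fun n : ℕ => t + (n : ℝ)) atTop atTop :=
      tendsto_atTop_add_const_left _ _ tendsto_natCast_atTop_atTop
    exact h5.eventually_ge_atTop _
  filter_upwards [this] with n hn
  exact h _ hn

/-- a connected subset of `KK` is in one arc or in the big piece -/
theorem conn_split (M : Set T) (hM : IsPreconnected M) (hMK : M ⊆ KK) :
    M ⊆ KS {1} ∨ ∃ k, M ⊆ EE '' GG {cc k} := by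
  by_cases hsub : M ⊆ KS {1}
  · exact Or.inl hsub
  right
  obtain ⟨z, hz, hz1⟩ := Set.not_subset.1 hsub
  have hzK := hMK hz
  rcases hzK with h | ⟨p, hp, rfl⟩
  · exact absurd (Or.inl h) hz1
  have hpB : p ∈ BB := hp.1
  have hpm : mm p ∈ Lam := hp.2
  rcases hpm with h | ⟨k, hk⟩
  · exact absurd (Or.inr ⟨p, ⟨hpB, h⟩, rfl⟩) hz1
  refine ⟨k, ?_⟩
  have hA : IsClosed (EE '' GG {cc k}) := by
    apply IsCompact.isClosed
    apply IsCompact.image_of_continuousOn (GG_arc_compact k)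
    exact EE_continuousOn.mono (fun p hp => hp.1)
  have hB : IsClosed (KS (Lam \ {cc k})) :=
    isClosed_union _ (GG_closed _ (Lam_diff_closed k)) (fun p hp => hp.1)
  have hcov : M ⊆ EE '' GG {cc k} ∪ KS (Lam \ {cc k}) := by
    intro w hw
    rcases hMK hw with h | ⟨q, hq, rfl⟩
    · exact Or.inr (Or.inl h)
    · by_cases hqk : mm q = cc k
      · exact Or.inl ⟨q, ⟨hq.1, hqk⟩, rfl⟩
      · exact Or.inr (Or.inr ⟨q, ⟨hq.1, hq.2, hqk⟩, rfl⟩)
  have h1 : (M ∩ EE '' GG {cc k}).Nonempty := ⟨_, hz, p, ⟨hpB, hk.symm⟩, rfl⟩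
  by_contra hnot
  obtain ⟨w, hw, hwA⟩ := Set.not_subset.1 hnot
  have h2 : (M ∩ KS (Lam \ {cc k})).Nonempty := by
    rcases hcov hw with h | h
    · exact absurd h hwA
    · exact ⟨w, hw, h⟩
  obtain ⟨v, _, ⟨a, ha, rfl⟩, hvB⟩ := (isPreconnected_closed_iff.1 hM) _ _ hA hB hcov h1 h2
  rcases hvB with h | ⟨b, hb, hba⟩
  · exact absurd (EE_mem a ha.1) h
  · have hab : b = a := EE_injOn hb.1 ha.1 hba
    subst hab
    exact hb.2.2 ha.2


theorem lim_meets {X : Type*} [MetricSpace X] (Q : ℕ → Set X) (Q' : Set X)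
    (hlim : Tendsto (fun n => Metric.hausdorffEDist (Q n) Q') atTop (𝓝 0)) (O : Set X)
    (hO : IsOpen O) (q : X) (hq : q ∈ Q') (hqO : q ∈ O) : ∀ᶠ n in atTop, (Q n ∩ O).Nonempty := by
  obtain ⟨ε, hε, hb⟩ := Metric.isOpen_iff.1 hO q hqO
  have h1 : ∀ᶠ n in atTop, Metric.hausdorffEDist (Q n) Q' < ENNReal.ofReal ε :=
    hlim.eventually (gt_mem_nhds (ENNReal.ofReal_pos.2 hε))
  filter_upwards [h1] with n hn
  rw [Metric.hausdorffEDist_comm] at hn
  obtain ⟨y, hy, hd⟩ := Metric.exists_edist_lt_of_hausdorffEDist_lt hq hn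
  refine ⟨y, hy, hb ?_⟩
  rw [Metric.mem_ball, dist_comm]
  rw [edist_dist] at hd
  exact (ENNReal.ofReal_lt_ofReal_iff hε).1 hd

theorem lim_sub {X : Type*} [MetricSpace X] (Q : ℕ → Set X) (Q' : Set X)
    (hlim : Tendsto (fun n => Metric.hausdorffEDist (Q n) Q') atTop (𝓝 0)) (C : Set X)
    (hC : IsClosed C) (h : ∀ n, Q n ⊆ C) : Q' ⊆ C := by
  intro q hq
  by_contra hqC
  obtain ⟨n, y, hy, hyC⟩ := (lim_meets Q Q' hlim Cᶜ hC.isOpen_compl q hq hqC).exists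
  exact hyC (h n hy)

theorem comp_eq {X : Type*} [TopologicalSpace X] {F C D : Set X} (hC : SurfFib.IsComp F C)
    (hD : SurfFib.IsComp F D) (p : X) (h1 : p ∈ C) (h2 : p ∈ D) : C = D := by
  obtain ⟨z, _, rfl⟩ := hC
  obtain ⟨w, _, rfl⟩ := hD
  rw [connectedComponentIn_eq h1, connectedComponentIn_eq h2]

theorem arc_disj (k : ℕ) (z : T) (hz : z ∈ EE '' GG {cc k}) : z ∉ KS {1} := by
  obtain ⟨p, hp, rfl⟩ := hz
  rintro (h | ⟨q, hq, hqp⟩)
  · exact absurd (EE_mem p hp.1) h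
  · have : q = p := EE_injOn hq.1 hp.1 hqp
    subst this
    have h1 : mm q = cc k := hp.2
    have h2 : mm q = 1 := hq.2
    rw [h2] at h1
    unfold cc at h1
    have : (0 : ℝ) < 1 / ((k : ℝ) + 2) := by positivity
    linarith

theorem arc_ne (k j : ℕ) (z : T) (hz : z ∈ EE '' GG {cc k}) (hz' : z ∈ EE '' GG {cc j}) :
    k = j := by
  obtain ⟨p, hp, rfl⟩ := hz
  obtain ⟨q, hq, hqp⟩ := hz'
  have : q = p := EE_injOn hq.1 hp.1 hqp
  subst this
  have h1 : mm q = cc k := hp.2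
  have h2 : mm q = cc j := hq.2
  rw [h2] at h1
  unfold cc at h1
  have h3 : 1 / ((k : ℝ) + 2) = 1 / ((j : ℝ) + 2) := by linarith
  have h4 := congrArg (fun x : ℝ => x⁻¹) h3
  have h5 : (k : ℝ) = j := by simpa using h4
  exact_mod_cast h5

theorem quad_sphere (x' y' : T) (hx : x' ∈ Ux (1 / 2)) (hy : y' ∈ Uy (1 / 2)) (hxK : x' ∈ KK)
    (hyK : y' ∈ KK) (h : unitInterval × unitInterval → T) (hh : IsEmbedding h)
    (Q : ℕ → Set T) (Q' : Set T) (hQ : Function.Injective Q)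
    (hcomp : ∀ n, SurfFib.IsComp (KK ∩ range h) (Q n))
    (hlim : Tendsto (fun n => Metric.hausdorffEDist (Q n) Q') atTop (𝓝 0))
    (hQc : IsCompact Q') (hQ' : IsConnected Q') (hxQ : x' ∈ Q') (hyQ : y' ∈ Q') :
    pr '' Metric.sphere 0 (1 / 10) ⊆ range h := by
  have hsub : ∀ n, Q n ⊆ KK ∩ range h := by
    intro n
    obtain ⟨z, _, hz⟩ := hcomp n
    rw [hz]
    exact connectedComponentIn_subset _ _
  have hpre : ∀ n, IsPreconnected (Q n) := by
    intro n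
    obtain ⟨z, _, hz⟩ := hcomp n
    rw [hz]
    exact isPreconnected_connectedComponentIn
  have hKc : IsClosed KK := isClosed_union _ (GG_closed _ Lam_closed) (fun p hp => hp.1)
  have hrc : IsClosed (range h) := (isCompact_range hh.continuous).isClosed
  have hQK : Q' ⊆ KK := lim_sub Q Q' hlim KK hKc (fun n => (hsub n).trans inter_subset_left)
  have hQr : Q' ⊆ range h :=
    lim_sub Q Q' hlim _ hrc (fun n => (hsub n).trans inter_subset_right)
  -- the `Q n` meet `Ux`, `Uy`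
  have hmx : ∀ᶠ n in atTop, (Q n ∩ Ux (1 / 2)).Nonempty := by
    obtain ⟨O, hO, hOK⟩ := Ux_open (1 / 2)
    have hxO : x' ∈ O := by
      have : x' ∈ O ∩ KK := by
        rw [hOK]
        exact ⟨hx, hxK⟩
      exact this.1
    filter_upwards [lim_meets Q Q' hlim O hO x' hxQ hxO] with n hn
    obtain ⟨y, hy1, hy2⟩ := hn
    have : y ∈ O ∩ KK := ⟨hy2, (hsub n hy1).1⟩
    rw [hOK] at this
    exact ⟨y, hy1, this.1⟩
  have hmy : ∀ᶠ n in atTop, (Q n ∩ Uy (1 / 2)).Nonempty := by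
    obtain ⟨O, hO, hOK⟩ := Uy_open (1 / 2)
    have hxO : y' ∈ O := by
      have : y' ∈ O ∩ KK := by
        rw [hOK]
        exact ⟨hy, hyK⟩
      exact this.1
    filter_upwards [lim_meets Q Q' hlim O hO y' hyQ hxO] with n hn
    obtain ⟨y, hy1, hy2⟩ := hn
    have : y ∈ O ∩ KK := ⟨hy2, (hsub n hy1).1⟩
    rw [hOK] at this
    exact ⟨y, hy1, this.1⟩
  have hQ1 : Q' ⊆ KS {1} := by
    intro q hq
    by_contra hq1
    rcases hQK hq with h' | ⟨p, hp, hpq⟩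
    · exact hq1 (Or.inl h')
    rcases hp.2 with h' | ⟨k, hk⟩
    · exact hq1 (Or.inr ⟨p, ⟨hp.1, h'⟩, hpq⟩)
    have hqk : q ∈ EE '' GG {cc k} := ⟨p, ⟨hp.1, hk.symm⟩, hpq⟩
    obtain ⟨O, hO, hOK⟩ := arc_open k
    have hqO : q ∈ O := by
      have : q ∈ O ∩ KK := by
        rw [hOK]
        exact hqk
      exact this.1
    have hev : ∀ᶠ n in atTop, EE ((k : ℝ) + 1, 0) ∈ Q n := by
      filter_upwards [lim_meets Q Q' hlim O hO q hq hqO, hmx, hmy] with n hn hnx hny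
      obtain ⟨y, hy1, hy2⟩ := hn
      have hyk : y ∈ EE '' GG {cc k} := by
        rw [← hOK]
        exact ⟨hy2, (hsub n hy1).1⟩
      apply conn_arc k (Q n) (hpre n) _ hnx hny
      rcases conn_split (Q n) (hpre n) ((hsub n).trans inter_subset_left) with h' | ⟨j, h'⟩
      · exact absurd (h' hy1) (arc_disj k y hyk)
      · have : k = j := arc_ne k j y hyk (h' hy1)
        rw [this]
        exact h'
    obtain ⟨N, hN⟩ := eventually_atTop.1 hev
    have := comp_eq (hcomp N) (hcomp (N + 1)) _ (hN N le_rfl) (hN (N + 1) (Nat.le_succ N))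
    have := hQ this
    omega
  have hτ : ∀ τ : ℝ, 1 / 2 ≤ τ → EE (τ, -1) ∈ Q' := fun τ hτ =>
    conn_big Q' hQ'.isPreconnected hQ1 ⟨x', hxQ, hx⟩ ⟨y', hyQ, hy⟩ τ hτ
  exact (sphere_sub Q' hQc.isClosed hτ).trans hQr

end Q2T
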