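import Mathlib
import Pool.Agent.SurfFib.Defs

/-! # MP_542b67_gt, Q2: definitions

The relation `R_K` of a subset `K` of a metric space `S`, the torus, the spiral band and the
compactum `KK`. -/

set_option autoImplicit false

open Set Filter Topology

namespace Q2T

/-- The relation `R_K`: `x = y`, or there is a marked quadrilateral `h : [0,1]² → S` (an embedding),
with `x ∈ I₁ = h([0,1] × {1})`, `y ∈ I₂ = h([0,1] × {0})`, the open lateral sides disjoint from `K`,
and infinitely many (distinct) components `Q n` of `K ∩ h([0,1]²)`, each meeting `I₁` and `I₂`,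
which converge in the Hausdorff metric to a continuum `Q'` containing `x` and `y`. -/
def RK {S : Type*} [MetricSpace S] (K : Set S) (x y : S) : Prop :=
  x = y ∨ ∃ h : unitInterval × unitInterval → S, IsEmbedding h ∧
    x ∈ h '' {p | p.2 = 1} ∧ y ∈ h '' {p | p.2 = 0} ∧
    (∀ p : unitInterval × unitInterval, (p.1 = 0 ∨ p.1 = 1) → p.2 ≠ 0 → p.2 ≠ 1 → h p ∉ K) ∧
    ∃ (Q : ℕ → Set S) (Q' : Set S), Function.Injective Q ∧
      (∀ n, SurfFib.IsComp (K ∩ range h) (Q n) ∧ (Q n ∩ h '' {p | p.2 = 1}).Nonempty ∧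
        (Q n ∩ h '' {p | p.2 = 0}).Nonempty) ∧
      Tendsto (fun n => Metric.hausdorffEDist (Q n) Q') atTop (𝓝 0) ∧
      IsCompact Q' ∧ IsConnected Q' ∧ x ∈ Q' ∧ y ∈ Q'

/-- the torus -/
abbrev T : Type := AddCircle (1 : ℝ) × AddCircle (1 : ℝ)

/-- the universal covering -/
noncomputable def pr (z : ℂ) : T := ((z.re : AddCircle (1 : ℝ)), (z.im : AddCircle (1 : ℝ)))

/-- the open disc `D` in the torus -/
def DD : Set T := pr '' Metric.ball 0 (1 / 10)

/-- the points of the unit circle -/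
noncomputable def cis (t : ℝ) : ℂ := Complex.exp (((2 * Real.pi * t : ℝ) : ℂ) * Complex.I)

/-- the half infinite band `t ≥ 0`, `|s| ≤ 1` -/
def BB : Set (ℝ × ℝ) := {p | 0 ≤ p.1 ∧ |p.2| ≤ 1}

/-- the spiral band, in the plane -/
noncomputable def E0 (p : ℝ × ℝ) : ℂ :=
  (((1 - 1 / (p.1 + p.2 / 4 + 2)) / 10 : ℝ) : ℂ) * cis p.1

/-- the spiral band, in the torus -/
noncomputable def EE (p : ℝ × ℝ) : T := pr (E0 p)

/-- its level sets `{mm = c}` in the band are the U-shaped arcs (`c < 1`) and the two sides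
(`c = 1`) -/
noncomputable def mm (p : ℝ × ℝ) : ℝ := max |p.2| (1 - 1 / (p.1 + 1))

/-- the levels -/
noncomputable def cc (k : ℕ) : ℝ := 1 - 1 / ((k : ℝ) + 2)

/-- all levels and their limit `1` -/
noncomputable def Lam : Set ℝ := insert 1 (range cc)

/-- the part of the band with levels in `Λ` -/
def GG (Λ : Set ℝ) : Set (ℝ × ℝ) := {p | p ∈ BB ∧ mm p ∈ Λ}

/-- the complement of the disc with the levels in `Λ` -/
def KS (Λ : Set ℝ) : Set T := DDᶜ ∪ EE '' GG Λ

/-- the compactum -/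
def KK : Set T := KS Lam

/-- neighbourhood of `EE (0,-1)` -/
def Ux (δ : ℝ) : Set T := EE '' {p | p ∈ BB ∧ p.1 < δ ∧ p.2 < -1 + δ}

/-- neighbourhood of `EE (0,1)` -/
def Uy (δ : ℝ) : Set T := EE '' {p | p ∈ BB ∧ p.1 < δ ∧ 1 - δ < p.2}

end Q2T
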