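import Pool.Agent.Q2T.Lift

/-! Embedded discs in the torus. -/

set_option autoImplicit false

open Set Filter Topology

namespace Q2T

theorem disc_pr_cont : Continuous pr := by
  unfold pr
  exact ((AddCircle.continuous_mk' (1 : ℝ)).comp Complex.continuous_re).prodMk
    ((AddCircle.continuous_mk' (1 : ℝ)).comp Complex.continuous_im)

theorem disc_pr_open : IsOpenMap pr := by
  have h1 : IsOpenMap (fun x : ℝ => (x : AddCircle (1 : ℝ))) := QuotientAddGroup.isOpenMap_coe
  have h2 : IsOpenMap (Prod.map (fun x : ℝ => (x : AddCircle (1 : ℝ)))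
      (fun x : ℝ => (x : AddCircle (1 : ℝ)))) := h1.prodMap h1
  have h3 : pr = (Prod.map (fun x : ℝ => (x : AddCircle (1 : ℝ)))
      (fun x : ℝ => (x : AddCircle (1 : ℝ)))) ∘ Complex.equivRealProdCLM := by
    funext z
    rfl
  rw [h3]
  exact h2.comp Complex.equivRealProdCLM.toHomeomorph.isOpenMap

theorem disc_int {a b : ℝ} (h : (a : AddCircle (1 : ℝ)) = b) : ∃ n : ℤ, a - b = n := by
  have h1 : ((a - b : ℝ) : AddCircle (1 : ℝ)) = 0 := by
    rw [AddCircle.coe_sub, h, sub_self]
  obtain ⟨n, hn⟩ := AddCircle.coe_eq_zero_iff (p := (1 : ℝ)) |>.1 h1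
  exact ⟨n, by rw [← hn]; simp⟩

theorem disc_const {Y : Type*} [TopologicalSpace Y] [PreconnectedSpace Y] (f : Y → ℝ)
    (hf : Continuous f) (h : ∀ t, ∃ n : ℤ, f t = n) (s t : Y) : f s = f t := by
  choose n hn using h
  have hn' : f = fun t => ((n t : ℤ) : ℝ) := funext hn
  have hc : Continuous n := by
    rw [Int.isClosedEmbedding_coe_real.isEmbedding.continuous_iff]
    rw [hn'] at hf
    exact hf
  rw [hn, hn, PreconnectedSpace.constant (inferInstance : PreconnectedSpace Y) hc (x := s) (y := t)]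

/-- a lift of the square -/
theorem disc_lift (h : unitInterval × unitInterval → T) (hh : Continuous h) :
    ∃ H : unitInterval × unitInterval → ℂ, Continuous H ∧ ∀ u, pr (H u) = h u := by
  obtain ⟨F, hF, h1⟩ := lift_sq (fun u => (h u).1) (continuous_fst.comp hh)
  obtain ⟨G, hG, h2⟩ := lift_sq (fun u => (h u).2) (continuous_snd.comp hh)
  refine ⟨fun u => ⟨F u, G u⟩, ?_, fun u => Prod.ext (h1 u) (h2 u)⟩
  exact Complex.equivRealProdCLM.symm.continuous.comp (hF.prodMk hG)

theorem disc_diff {Y : Type*} [TopologicalSpace Y] [PreconnectedSpace Y] (P Q : Y → ℂ)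
    (hP : Continuous P) (hQ : Continuous Q) (h : ∀ y, pr (P y) = pr (Q y)) (s t : Y) :
    P s - Q s = P t - Q t := by
  apply Complex.ext
  · have := disc_const (fun y => (P y).re - (Q y).re)
      ((Complex.continuous_re.comp hP).sub (Complex.continuous_re.comp hQ))
      (fun y => disc_int (congrArg Prod.fst (h y))) s t
    simpa using this
  · have := disc_const (fun y => (P y).im - (Q y).im)
      ((Complex.continuous_im.comp hP).sub (Complex.continuous_im.comp hQ))
      (fun y => disc_int (congrArg Prod.snd (h y))) s t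
    simpa using this

theorem cis_cont : Continuous cis := by
  unfold cis
  fun_prop

theorem disc_lattice {a b c : ℂ} (h : pr a = pr b) : pr (c + (a - b)) = pr c := by
  obtain ⟨n, hn⟩ := disc_int (congrArg Prod.fst h)
  obtain ⟨m, hm⟩ := disc_int (congrArg Prod.snd h)
  have key : ∀ (x : ℝ) (k : ℤ), ((x + k : ℝ) : AddCircle (1 : ℝ)) = x := by
    intro x k
    rw [AddCircle.coe_add]
    have : ((k : ℝ) : AddCircle (1 : ℝ)) = 0 :=
      (AddCircle.coe_eq_zero_iff (p := (1 : ℝ))).2 ⟨k, by simp⟩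
    rw [this, add_zero]
  unfold pr
  refine Prod.ext ?_ ?_
  · show (((c + (a - b)).re : ℝ) : AddCircle (1 : ℝ)) = _
    rw [Complex.add_re, Complex.sub_re, hn]
    exact key _ _
  · show (((c + (a - b)).im : ℝ) : AddCircle (1 : ℝ)) = _
    rw [Complex.add_im, Complex.sub_im, hm]
    exact key _ _

/-- Let `q = pr w ∈ D`, `q ∉ range h`. Lift `h` to `H : [0,1]² → ℂ` (`lift_sq` twice), let
`γ t = cis t / 10`, `η t = h⁻¹ (pr (γ t))`; `H (η t) - γ t` is continuous with values in the lattice,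
so a constant `l`; `g u = H u - l - w` has no zero; `log_sq g` and `no_wind (-w) (1/10)`. -/
theorem disc_fill (h : unitInterval × unitInterval → T) (hh : IsEmbedding h)
    (hD : pr '' Metric.sphere 0 (1 / 10) ⊆ range h) : DD ⊆ range h := by
  rintro q ⟨w, hw, rfl⟩
  by_contra hq
  rw [Metric.mem_ball, dist_zero_right] at hw
  obtain ⟨H, hH, hpr⟩ := disc_lift h hh.continuous
  let γ : ℝ → ℂ := fun t => ((1 / 10 : ℝ) : ℂ) * cis t
  have hγ : Continuous γ := continuous_const.mul cis_cont
  have hγm : ∀ t, γ t ∈ Metric.sphere (0 : ℂ) (1 / 10) := by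
    intro t
    rw [mem_sphere_zero_iff_norm, norm_mul, cis_norm, Complex.norm_real, mul_one]
    norm_num
  let η : ℝ → unitInterval × unitInterval := fun t =>
    hh.toHomeomorph.symm ⟨pr (γ t), hD ⟨γ t, hγm t, rfl⟩⟩
  have hη : Continuous η :=
    hh.toHomeomorph.symm.continuous.comp ((disc_pr_cont.comp hγ).subtype_mk _)
  have hηh : ∀ t, h (η t) = pr (γ t) := by
    intro t
    have h1 := hh.toHomeomorph.apply_symm_apply ⟨pr (γ t), hD ⟨γ t, hγm t, rfl⟩⟩
    exact congrArg Subtype.val h1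
  have hd : ∀ t, H (η t) - γ t = H (η 0) - γ 0 := fun t =>
    disc_diff (fun t => H (η t)) γ (hH.comp hη) hγ (fun t => by rw [hpr, hηh]) t 0
  set l := H (η 0) - γ 0 with hl
  have hg0 : ∀ u, H u - l - w ≠ 0 := by
    intro u hu
    apply hq
    refine ⟨u, ?_⟩
    have h1 : H u = w + (H (η 0) - γ 0) := by
      rw [← hl]
      linear_combination hu
    rw [← hpr, h1]
    exact disc_lattice (by rw [hpr, hηh])
  obtain ⟨A, hA, hAg⟩ := log_sq (fun u => H u - l - w) ((hH.sub continuous_const).sub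
    continuous_const) hg0
  refine no_wind (-w) (1 / 10) (by rw [norm_neg]; exact hw) (fun t => A (η t))
    (hA.comp hη).continuousOn ?_ ?_
  · have h1 : cis 0 = cis 1 := by
      unfold cis
      simp
    have h2 : η 0 = η 1 := by
      have h3 : γ 0 = γ 1 := by
        show ((1 / 10 : ℝ) : ℂ) * cis 0 = ((1 / 10 : ℝ) : ℂ) * cis 1
        rw [h1]
      show hh.toHomeomorph.symm ⟨pr (γ 0), _⟩ = hh.toHomeomorph.symm ⟨pr (γ 1), _⟩
      congr 2
      rw [h3]
    rw [h2]
  · intro t _
    have h1 := hAg (η t)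
    have h2 : H (η t) - l - w = -w + ((1 / 10 : ℝ) : ℂ) * cis t := by
      have h3 := hd t
      have h4 : γ t = ((1 / 10 : ℝ) : ℂ) * cis t := rfl
      rw [← h4]
      linear_combination h3
    rw [h2] at h1
    exact h1

/-- Let `z = h (0,1/2) ∈ U`, `H` a lift of `h`, `w₀ = H (0,1/2)`. For `w` near `w₀`,
`pr w ∈ U ⊆ range h`, `u w = h⁻¹ (pr w)` is continuous, `H (u w) = w` near `w₀`. The set
`X = {u ∈ [0,1]² | u ≠ (0,1/2), |u - (0,1/2)| < δ}` is star-shaped and `H - w₀` has no zero on it: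
`log_star`, `no_wind 0 r` for a small circle around `w₀`. -/
theorem side_point (h : unitInterval × unitInterval → T) (hh : IsEmbedding h) (U : Set T)
    (hU : IsOpen U) (hUr : U ⊆ range h) (m : unitInterval) (hm : (m : ℝ) = 1 / 2) :
    h (0, m) ∉ U := by
  intro hz
  obtain ⟨H, hH, hpr⟩ := disc_lift h hh.continuous
  set w₀ := H (0, m) with hw₀
  have hUo : IsOpen (pr ⁻¹' U) := hU.preimage disc_pr_cont
  have hmem : w₀ ∈ pr ⁻¹' U := by
    show pr w₀ ∈ U
    rw [hw₀, hpr]
    exact hz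
  obtain ⟨ρ, hρ, hball⟩ := Metric.isOpen_iff.1 hUo w₀ hmem
  -- the inverse on the ball
  let B : Set ℂ := Metric.ball w₀ ρ
  have hBc : PreconnectedSpace B :=
    Subtype.preconnectedSpace (convex_ball w₀ ρ).isPreconnected
  let η : B → unitInterval × unitInterval := fun w =>
    hh.toHomeomorph.symm ⟨pr w, hUr (hball w.2)⟩
  have hη : Continuous η :=
    hh.toHomeomorph.symm.continuous.comp ((disc_pr_cont.comp continuous_subtype_val).subtype_mk _)
  have hηh : ∀ w, h (η w) = pr w := by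
    intro w
    have h1 := hh.toHomeomorph.apply_symm_apply ⟨pr w, hUr (hball w.2)⟩
    exact congrArg Subtype.val h1
  have hw₀B : w₀ ∈ B := Metric.mem_ball_self hρ
  have hη0 : η ⟨w₀, hw₀B⟩ = (0, m) := by
    apply hh.injective
    rw [hηh, ← hpr]
  have hHη : ∀ w : B, H (η w) = w := by
    intro w
    have h1 := disc_diff (fun w : B => H (η w)) (fun w : B => (w : ℂ)) (hH.comp hη)
      continuous_subtype_val (fun w => by rw [hpr, hηh]) w ⟨w₀, hw₀B⟩
    simp only at h1
    rw [hη0, ← hw₀, sub_self] at h1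
    exact sub_eq_zero.1 h1
  -- the star-shaped set
  let X : Set (ℝ × ℝ) := {v | v.1 ∈ Icc (0 : ℝ) 1 ∧ v.2 ∈ Icc (0 : ℝ) 1 ∧ v ≠ (0, 1 / 2)}
  have hp : ((1 / 2 : ℝ), (1 / 2 : ℝ)) ∈ X := by
    refine ⟨by norm_num, by norm_num, ?_⟩
    intro h1
    have := congrArg Prod.fst h1
    norm_num at this
  have hX : StarConvex ℝ ((1 / 2 : ℝ), (1 / 2 : ℝ)) X := by
    intro v hv a b ha hb hab
    obtain ⟨h1, h2, h3⟩ := hv
    have e1 : (a • ((1 / 2 : ℝ), (1 / 2 : ℝ)) + b • v).1 = a * (1 / 2) + b * v.1 := rfl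
    have e2 : (a • ((1 / 2 : ℝ), (1 / 2 : ℝ)) + b • v).2 = a * (1 / 2) + b * v.2 := rfl
    refine ⟨?_, ?_, ?_⟩
    · rw [e1]
      constructor
      · have := mul_nonneg hb h1.1
        linarith
      · have := mul_le_mul_of_nonneg_left h1.2 hb
        linarith
    · rw [e2]
      constructor
      · have := mul_nonneg hb h2.1
        linarith
      · have := mul_le_mul_of_nonneg_left h2.2 hb
        linarith
    · intro h4
      have h5 := congrArg Prod.fst h4
      rw [e1] at h5
      simp only at h5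
      have h6 := mul_nonneg hb h1.1
      have ha0 : a = 0 := by linarith
      have hb1 : b = 1 := by linarith
      rw [ha0, hb1, zero_smul, one_smul, zero_add] at h4
      exact h3 h4
  let κ : X → unitInterval × unitInterval := fun v => (⟨v.1.1, v.2.1⟩, ⟨v.1.2, v.2.2.1⟩)
  have hκ : Continuous κ := by
    refine Continuous.prodMk ?_ ?_
    · exact (continuous_fst.comp continuous_subtype_val).subtype_mk _
    · exact (continuous_snd.comp continuous_subtype_val).subtype_mk _
  have hκ0 : ∀ v, κ v ≠ (0, m) := by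
    intro v hv
    have h1 := congrArg (fun q : unitInterval × unitInterval => (q.1 : ℝ)) hv
    have h2 := congrArg (fun q : unitInterval × unitInterval => (q.2 : ℝ)) hv
    simp only [κ] at h1 h2
    refine v.2.2.2 (Prod.ext ?_ ?_)
    · simpa using h1
    · simpa [hm] using h2
  have hg0 : ∀ v : X, H (κ v) - w₀ ≠ 0 := by
    intro v hv
    apply hκ0 v
    apply hh.injective
    rw [← hpr, ← hpr, sub_eq_zero.1 hv]
  obtain ⟨A, hA, hAg⟩ := log_star X _ hp hX (fun v => H (κ v) - w₀)
    ((hH.comp hκ).sub continuous_const) hg0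
  -- the small circle
  set r : ℝ := ρ / 2 with hr
  have hr0 : 0 < r := by positivity
  have hcirc : ∀ t : ℝ, w₀ + (r : ℂ) * cis t ∈ B := by
    intro t
    rw [Metric.mem_ball, dist_eq_norm, add_sub_cancel_left, norm_mul, cis_norm, Complex.norm_real,
      mul_one, Real.norm_eq_abs, abs_of_pos hr0]
    linarith
  let ζ : ℝ → B := fun t => ⟨w₀ + (r : ℂ) * cis t, hcirc t⟩
  have hζ : Continuous ζ :=
    (continuous_const.add (continuous_const.mul cis_cont)).subtype_mk _
  have hζ0 : ∀ t, η (ζ t) ≠ (0, m) := by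
    intro t ht
    have h1 := hHη (ζ t)
    rw [ht, ← hw₀] at h1
    have h2 : (ζ t : ℂ) = w₀ + (r : ℂ) * cis t := rfl
    rw [h2] at h1
    have h3 : (r : ℂ) * cis t = 0 := by linear_combination -h1
    have h4 := congrArg norm h3
    rw [norm_mul, cis_norm, Complex.norm_real, mul_one, norm_zero, Real.norm_eq_abs,
      abs_of_pos hr0] at h4
    exact hr0.ne' h4
  let ξ : ℝ → X := fun t => ⟨(((η (ζ t)).1 : ℝ), ((η (ζ t)).2 : ℝ)), (η (ζ t)).1.2, (η (ζ t)).2.2, by
    intro h1
    apply hζ0 t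
    have h2 := congrArg Prod.fst h1
    have h3 := congrArg Prod.snd h1
    simp only at h2 h3
    refine Prod.ext (Subtype.ext ?_) (Subtype.ext ?_)
    · simpa using h2
    · rw [h3, hm]⟩
  have hξ : Continuous ξ := by
    refine Continuous.subtype_mk ?_ _
    exact (continuous_subtype_val.comp (continuous_fst.comp (hη.comp hζ))).prodMk
      (continuous_subtype_val.comp (continuous_snd.comp (hη.comp hζ)))
  have hκξ : ∀ t, κ (ξ t) = η (ζ t) := fun t => rfl
  refine no_wind 0 r (by rw [norm_zero]; exact hr0) (fun t => A (ξ t))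
    (hA.comp hξ).continuousOn ?_ ?_
  · have h1 : cis 0 = cis 1 := by
      unfold cis
      simp
    have h2 : ζ 0 = ζ 1 := by
      apply Subtype.ext
      show w₀ + (r : ℂ) * cis 0 = w₀ + (r : ℂ) * cis 1
      rw [h1]
    have h3 : ξ 0 = ξ 1 := by
      apply Subtype.ext
      show (((η (ζ 0)).1 : ℝ), ((η (ζ 0)).2 : ℝ)) = (((η (ζ 1)).1 : ℝ), ((η (ζ 1)).2 : ℝ))
      rw [h2]
    rw [h3]
  · intro t _
    have h1 := hAg (ξ t)
    have h2 : H (κ (ξ t)) - w₀ = 0 + (r : ℂ) * cis t := by
      rw [hκξ, hHη]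
      show w₀ + (r : ℂ) * cis t - w₀ = _
      ring
    rw [h2] at h1
    exact h1

theorem no_disc (h : unitInterval × unitInterval → T) (hh : IsEmbedding h)
    (hD : pr '' Metric.sphere 0 (1 / 10) ⊆ range h)
    (hs : ∀ p : unitInterval × unitInterval, (p.1 = 0 ∨ p.1 = 1) → p.2 ≠ 0 → p.2 ≠ 1 →
      h p ∈ DD) : False := by
  have hm : ((⟨1 / 2, by norm_num, by norm_num⟩ : unitInterval) : ℝ) = 1 / 2 := rfl
  refine side_point h hh DD (disc_pr_open _ Metric.isOpen_ball) (disc_fill h hh hD) _ hm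
    (hs _ (Or.inl rfl) ?_ ?_)
  · intro h1
    have := congrArg (fun x : unitInterval => (x : ℝ)) h1
    norm_num at this
  · intro h1
    have := congrArg (fun x : unitInterval => (x : ℝ)) h1
    norm_num at this

end Q2T
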