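import Pool.Agent.Q2T.Defs
import Pool.Agent.H40K5.K5

/-! `K₅` is not planar. -/

set_option autoImplicit false

open Set Filter Topology

namespace Q2T

/-- van Kampen: for disjoint edges `e = ij`, `f = kl` a continuous argument `Θ` of `γ_e s - γ_f t` on
the square (`log_sq`); the four corner differences give a relation between the angles; the sum over
the 15 pairs is even on one side and odd (5 interlaced pairs) on the other. -/
theorem K5_paths (v : Fin 5 → ℂ) (γ : Fin 5 → Fin 5 → ℝ → ℂ)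
    (hγ : ∀ i j, i < j → ContinuousOn (γ i j) (Icc 0 1))
    (h0 : ∀ i j, i < j → γ i j 0 = v i) (h1 : ∀ i j, i < j → γ i j 1 = v j)
    (hd : ∀ i j k l, i < j → k < l → i ≠ k → i ≠ l → j ≠ k → j ≠ l →
      ∀ s ∈ Icc (0 : ℝ) 1, ∀ t ∈ Icc (0 : ℝ) 1, γ i j s ≠ γ k l t) : False :=
  H40K5.no_K5 v γ hγ h0 h1 hd

end Q2T
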