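import Pool.Agent.Q2T.Defs

/-! Lifts of maps from star-shaped sets and squares to the circle. -/

set_option autoImplicit false

open Set Filter Topology

namespace Q2T

theorem lift_contr {A : Type*} [TopologicalSpace A] (c : unitInterval × A → A)
    (hc : Continuous c) (a₀ : A) (h0 : ∀ a, c (0, a) = a₀) (h1 : ∀ a, c (1, a) = a)
    (f : A → AddCircle (1 : ℝ)) (hf : Continuous f) :
    ∃ F : A → ℝ, Continuous F ∧ ∀ u, ((F u : ℝ) : AddCircle (1 : ℝ)) = f u := by
  obtain ⟨e, he⟩ := QuotientAddGroup.mk_surjective (f a₀)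
  have cov := AddCircle.isCoveringMap_coe (1 : ℝ)
  let H : C(unitInterval × A, AddCircle (1 : ℝ)) := ⟨fun q => f (c q), hf.comp hc⟩
  have H0 : ∀ a, H (0, a) = ((ContinuousMap.const A e a : ℝ) : AddCircle (1 : ℝ)) := by
    intro a
    show f (c (0, a)) = _
    rw [h0 a]
    exact he.symm
  let L := cov.liftHomotopy H (ContinuousMap.const A e) H0
  refine ⟨fun a => L (1, a), L.continuous.comp (by fun_prop), fun a => ?_⟩
  have h := congrFun (cov.liftHomotopy_lifts H (ContinuousMap.const A e) H0) (1, a)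
  have h2 : H (1, a) = f a := by
    show f (c (1, a)) = _
    rw [h1 a]
  rw [← h2]
  exact h

/-- homotopy lifting (`IsCoveringMap.liftHomotopy`, `AddCircle.isCoveringMap_coe`) along the
segments from `p` -/
theorem lift_star {V : Type*} [NormedAddCommGroup V] [NormedSpace ℝ V] (X : Set V) (p : V)
    (hp : p ∈ X) (hX : StarConvex ℝ p X) (f : X → AddCircle (1 : ℝ)) (hf : Continuous f) :
    ∃ F : X → ℝ, Continuous F ∧ ∀ u, ((F u : ℝ) : AddCircle (1 : ℝ)) = f u := by
  refine lift_contr (fun q : unitInterval × X =>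
    (⟨(1 - (q.1 : ℝ)) • p + (q.1 : ℝ) • (q.2 : V),
      hX q.2.2 (sub_nonneg.2 q.1.2.2) q.1.2.1 (by ring)⟩ : X)) ?_ ⟨p, hp⟩ ?_ ?_ f hf
  · refine Continuous.subtype_mk ?_ _
    fun_prop
  · intro a
    ext
    simp
  · intro a
    ext
    simp

/-- the same for the square -/
theorem lift_sq (f : unitInterval × unitInterval → AddCircle (1 : ℝ)) (hf : Continuous f) :
    ∃ F : unitInterval × unitInterval → ℝ, Continuous F ∧
      ∀ u, ((F u : ℝ) : AddCircle (1 : ℝ)) = f u := by
  refine lift_contr (fun q : unitInterval × (unitInterval × unitInterval) =>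
    (q.1 * q.2.1, q.1 * q.2.2)) ?_ (0, 0) ?_ ?_ f hf
  · exact (continuous_fst.mul (continuous_fst.comp continuous_snd)).prodMk
      (continuous_fst.mul (continuous_snd.comp continuous_snd))
  · intro a
    simp
  · intro a
    simp

theorem log_of_lift {A : Type*} [TopologicalSpace A]
    (hl : ∀ f : A → AddCircle (1 : ℝ), Continuous f →
      ∃ F : A → ℝ, Continuous F ∧ ∀ u, ((F u : ℝ) : AddCircle (1 : ℝ)) = f u)
    (g : A → ℂ) (hg : Continuous g) (hg0 : ∀ u, g u ≠ 0) :
    ∃ F : A → ℝ, Continuous F ∧ ∀ u, g u = (‖g u‖ : ℂ) * cis (F u) := by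
  have hn : ∀ u, ‖g u‖ ≠ 0 := fun u => norm_ne_zero_iff.2 (hg0 u)
  have hmem : ∀ u, (g u / (‖g u‖ : ℂ)) ∈ Submonoid.unitSphere ℂ := by
    intro u
    have : ‖g u / (‖g u‖ : ℂ)‖ = 1 := by
      rw [norm_div, Complex.norm_real, norm_norm, div_self (hn u)]
    exact mem_sphere_zero_iff_norm.2 this
  let k : A → Circle := fun u => ⟨g u / (‖g u‖ : ℂ), hmem u⟩
  have hk : Continuous k := by
    refine Continuous.subtype_mk ?_ _
    refine hg.div (Complex.continuous_ofReal.comp hg.norm) fun u => ?_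
    exact Complex.ofReal_ne_zero.2 (hn u)
  let e := AddCircle.homeomorphCircle (T := (1 : ℝ)) one_ne_zero
  obtain ⟨F, hF, h⟩ := hl (fun u => e.symm (k u)) (e.symm.continuous.comp hk)
  refine ⟨F, hF, fun u => ?_⟩
  have h1 : e ((F u : ℝ) : AddCircle (1 : ℝ)) = k u := by
    rw [h u]
    exact e.apply_symm_apply _
  have h2 : e ((F u : ℝ) : AddCircle (1 : ℝ)) = Circle.exp (2 * Real.pi / 1 * F u) := by
    rw [AddCircle.homeomorphCircle_apply]
    exact AddCircle.toCircle_apply_mk _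
  have h3 : (g u / (‖g u‖ : ℂ)) = cis (F u) := by
    have h4 : ((k u : Circle) : ℂ) = g u / (‖g u‖ : ℂ) := rfl
    rw [← h4, ← h1, h2, Circle.coe_exp, cis, div_one]
  rw [← h3]
  have := Complex.ofReal_ne_zero.2 (hn u)
  field_simp

theorem log_star {V : Type*} [NormedAddCommGroup V] [NormedSpace ℝ V] (X : Set V) (p : V)
    (hp : p ∈ X) (hX : StarConvex ℝ p X) (g : X → ℂ) (hg : Continuous g) (hg0 : ∀ u, g u ≠ 0) :
    ∃ A : X → ℝ, Continuous A ∧ ∀ u, g u = (‖g u‖ : ℂ) * cis (A u) :=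
  log_of_lift (fun f hf => lift_star X p hp hX f hf) g hg hg0

theorem log_sq (g : unitInterval × unitInterval → ℂ) (hg : Continuous g) (hg0 : ∀ u, g u ≠ 0) :
    ∃ A : unitInterval × unitInterval → ℝ, Continuous A ∧ ∀ u, g u = (‖g u‖ : ℂ) * cis (A u) :=
  log_of_lift lift_sq g hg hg0

theorem cis_mul (s t : ℝ) : cis s * cis t = cis (s + t) := by
  unfold cis
  rw [← Complex.exp_add]
  congr 1
  push_cast
  ring

theorem cis_norm (t : ℝ) : ‖cis t‖ = 1 := by
  unfold cis
  rw [Complex.norm_exp_ofReal_mul_I]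

theorem cis_re (t : ℝ) : (cis t).re = Real.cos (2 * Real.pi * t) := by
  unfold cis
  rw [Complex.exp_ofReal_mul_I_re]

/-- a circle winds once around the points inside it -/
theorem no_wind (c : ℂ) (r : ℝ) (hc : ‖c‖ < r) (A : ℝ → ℝ) (hA : ContinuousOn A (Icc 0 1))
    (h01 : A 0 = A 1)
    (h : ∀ t ∈ Icc (0 : ℝ) 1, c + r * cis t = (‖c + r * cis t‖ : ℂ) * cis (A t)) : False := by
  have hpos : ∀ t ∈ Icc (0 : ℝ) 1, 0 < Real.cos (2 * Real.pi * (A t - t)) := by
    intro t ht
    have h1 : (c + r * cis t) * cis (-t) = (‖c + r * cis t‖ : ℂ) * cis (A t - t) := by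
      rw [h t ht]
      have e1 : A t - t = A t + -t := by ring
      rw [e1, ← cis_mul]
      have : (‖(‖c + r * cis t‖ : ℂ) * cis (A t)‖ : ℝ) = ‖c + r * cis t‖ := by
        rw [← h t ht]
      rw [this]
      ring
    have h2 : (c + r * cis t) * cis (-t) = c * cis (-t) + r := by
      rw [add_mul, mul_assoc, cis_mul]
      have : cis (t + -t) = 1 := by
        unfold cis
        simp
      rw [this, mul_one]
    rw [h2] at h1
    have h3 := congrArg Complex.re h1
    rw [Complex.add_re, Complex.ofReal_re, Complex.re_ofReal_mul, cis_re] at h3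
    have h4 : -‖c‖ ≤ (c * cis (-t)).re := by
      have h5 := Complex.abs_re_le_norm (c * cis (-t))
      rw [norm_mul, cis_norm, mul_one] at h5
      exact (abs_le.1 h5).1
    have h6 : 0 < ‖c + r * cis t‖ * Real.cos (2 * Real.pi * (A t - t)) := by
      rw [← h3]
      linarith
    exact pos_of_mul_pos_right h6 (norm_nonneg _)
  have hB : ContinuousOn (fun t => A t - t) (Icc 0 1) := hA.sub continuousOn_id
  have hmem : (A 0 - 1 / 2) ∈ Icc (A 1 - 1) (A 0 - 0) := by
    constructor <;> linarith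
  obtain ⟨t, ht, h7⟩ := intermediate_value_Icc' (zero_le_one (α := ℝ)) hB hmem
  have h8 := hpos t ht
  have h9 := hpos 0 ⟨le_rfl, zero_le_one⟩
  simp only at h7
  rw [h7] at h8
  have h10 : Real.cos (2 * Real.pi * (A 0 - 1 / 2)) = - Real.cos (2 * Real.pi * (A 0 - 0)) := by
    have : 2 * Real.pi * (A 0 - 1 / 2) = 2 * Real.pi * (A 0 - 0) - Real.pi := by ring
    rw [this, Real.cos_sub_pi]
  linarith

end Q2T
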