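import Pool.Agent.Q2T.K5

/-! The complement of the disc is not planar. -/

set_option autoImplicit false

open Set Filter Topology

namespace Q2T

/-- type of the edge `ij`: direction `α` (`true`) or `β` -/
def eTy (i j : Fin 5) : Bool := j.val == i.val + 1 || j.val == i.val + 4

/-- index of the first vertex of the edge `ij` (in the direction of the edge) -/
def eIx (i j : Fin 5) : ℤ := if j.val ≤ i.val + 2 then (i.val : ℤ) else (j.val : ℤ)

/-- the parameter of the edge -/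
def eFl (i j : Fin 5) (t : ℝ) : ℝ := if j.val ≤ i.val + 2 then t else 1 - t

/-- first coordinate -/
noncomputable def eA (i j : Fin 5) (t : ℝ) : ℝ :=
  if eTy i j = true then (eIx i j : ℝ) - 1 / 2 + eFl i j t else (eIx i j : ℝ) - 1 / 2

/-- second coordinate -/
noncomputable def eB (i j : Fin 5) (t : ℝ) : ℝ :=
  if eTy i j = true then -1 / 2 else -1 / 2 + eFl i j t

/-- the point of the plane with the coordinates `α = x + 2 y`, `β = 2 x - y` -/
noncomputable def zab (a b : ℝ) : ℂ := ⟨(a + 2 * b) / 5, (2 * a - b) / 5⟩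

theorem pr_eq_iff (z w : ℂ) :
    pr z = pr w ↔ ∃ m n : ℤ, z.re - w.re = m ∧ z.im - w.im = n := by
  unfold pr
  rw [Prod.mk.injEq, ← sub_eq_zero, ← AddCircle.coe_sub, AddCircle.coe_eq_zero_iff,
    ← sub_eq_zero (a := ((z.im : ℝ) : AddCircle (1 : ℝ))), ← AddCircle.coe_sub,
    AddCircle.coe_eq_zero_iff]
  constructor
  · rintro ⟨⟨m, hm⟩, n, hn⟩
    exact ⟨m, n, by simpa using hm.symm, by simpa using hn.symm⟩
  · rintro ⟨m, n, hm, hn⟩
    exact ⟨⟨m, by simpa using hm.symm⟩, n, by simpa using hn.symm⟩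

theorem zab_eq (a b a' b' : ℝ) (h : pr (zab a b) = pr (zab a' b')) :
    ∃ m n : ℤ, a - a' = m + 2 * n ∧ b - b' = 2 * m - n := by
  obtain ⟨m, n, hm, hn⟩ := (pr_eq_iff _ _).mp h
  simp only [zab] at hm hn
  exact ⟨m, n, by linarith, by linarith⟩

theorem zab_eq' (a b a' b' : ℝ) (m n : ℤ) (h1 : a - a' = m + 2 * n) (h2 : b - b' = 2 * m - n) :
    pr (zab a b) = pr (zab a' b') := by
  refine (pr_eq_iff _ _).mpr ⟨m, n, ?_, ?_⟩
  · simp only [zab]; linarith
  · simp only [zab]; linarith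

/-- the edges -/
noncomputable def edge (i j : Fin 5) (t : ℝ) : T := pr (zab (eA i j t) (eB i j t))

/-- the vertices -/
noncomputable def vtx (i : Fin 5) : T := pr (zab ((i.val : ℝ) - 1 / 2) (-1 / 2))

theorem edge_zero (i j : Fin 5) (h : i < j) : edge i j 0 = vtx i := by
  unfold edge vtx
  fin_cases i <;> fin_cases j <;> first
    | (exfalso; revert h; decide)
    | (refine zab_eq' _ _ _ _ 0 0 ?_ ?_ <;> norm_num [eA, eB, eTy, eIx, eFl] <;> done)
    | (refine zab_eq' _ _ _ _ 1 2 ?_ ?_ <;> norm_num [eA, eB, eTy, eIx, eFl] <;> done)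
    | (refine zab_eq' _ _ _ _ 1 1 ?_ ?_ <;> norm_num [eA, eB, eTy, eIx, eFl])

theorem edge_one (i j : Fin 5) (h : i < j) : edge i j 1 = vtx j := by
  unfold edge vtx
  fin_cases i <;> fin_cases j <;> first
    | (exfalso; revert h; decide)
    | (refine zab_eq' _ _ _ _ 0 0 ?_ ?_ <;> norm_num [eA, eB, eTy, eIx, eFl] <;> done)
    | (refine zab_eq' _ _ _ _ 0 (-1) ?_ ?_ <;> norm_num [eA, eB, eTy, eIx, eFl])

theorem eFl_mem (i j : Fin 5) (t : ℝ) (ht : t ∈ Icc (0 : ℝ) 1) : eFl i j t ∈ Icc (0 : ℝ) 1 := by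
  unfold eFl
  split_ifs
  · exact ht
  · exact ⟨by linarith [ht.2], by linarith [ht.1]⟩

theorem zab_notMem (a b : ℝ) (k : ℤ) (h : a = k - 1 / 2 ∨ b = k - 1 / 2) :
    pr (zab a b) ∉ DD := by
  rintro ⟨z, hz, hzz⟩
  obtain ⟨m, n, hm, hn⟩ := (pr_eq_iff _ _).mp hzz.symm
  simp only [zab] at hm hn
  have hz' : z.re ^ 2 + z.im ^ 2 < 1 / 100 := by
    have h1 : ‖z‖ < 1 / 10 := by simpa using hz
    have h2 : ‖z‖ ^ 2 = z.re ^ 2 + z.im ^ 2 := by
      rw [← Complex.normSq_eq_norm_sq, Complex.normSq_apply]; ring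
    rw [← h2]
    have := norm_nonneg z
    nlinarith
  have key : ∀ (x : ℝ) (j : ℤ), x ^ 2 < 1 / 20 → x = j - 1 / 2 → False := by
    intro x j h1 h2
    have h3 : x < 1 / 2 := by nlinarith
    have h4 : -(1 / 2) < x := by nlinarith
    have h5 : (j : ℝ) < 1 := by linarith
    have h6 : (0 : ℝ) < j := by linarith
    have h7 : j < 1 := by exact_mod_cast h5
    have h8 : 0 < j := by exact_mod_cast h6
    omega
  rcases h with h | h
  · refine key (z.re + 2 * z.im) (k - (m + 2 * n)) ?_ ?_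
    · nlinarith [sq_nonneg (2 * z.re - z.im)]
    · push_cast; linarith
  · refine key (2 * z.re - z.im) (k - (2 * m - n)) ?_ ?_
    · nlinarith [sq_nonneg (z.re + 2 * z.im)]
    · push_cast; linarith

theorem edge_notMem (i j : Fin 5) (t : ℝ) : edge i j t ∉ DD := by
  unfold edge
  by_cases h : eTy i j = true
  · exact zab_notMem _ _ 0 (Or.inr (by simp [eB, h]; norm_num))
  · exact zab_notMem _ _ (eIx i j) (Or.inl (by simp [eA, h]))

theorem vtx_notMem (i : Fin 5) : vtx i ∉ DD :=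
  zab_notMem _ _ i.val (Or.inl (by push_cast; ring))

/-- arithmetic of two edges of type `α` -/
theorem arithAA (I J m n : ℤ) (s t : ℝ) (hs : s ∈ Icc (0 : ℝ) 1) (ht : t ∈ Icc (0 : ℝ) 1)
    (h1 : (I - 1 / 2 + s : ℝ) - (J - 1 / 2 + t) = m + 2 * n)
    (h2 : (-1 / 2 : ℝ) - (-1 / 2) = 2 * m - n) :
    (I - J) % 5 = 0 ∨ (I - J) % 5 = 1 ∨ (I - J) % 5 = 4 := by
  have e2 : n = 2 * m := by
    have : (n : ℝ) = 2 * m := by linarith
    exact_mod_cast this
  subst e2
  push_cast at h1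
  have e3 : s - t = ((5 * m - I + J : ℤ) : ℝ) := by push_cast; linarith
  have e4 : ((5 * m - I + J : ℤ) : ℝ) ≤ 1 := by rw [← e3]; linarith [hs.2, ht.1]
  have e5 : (-1 : ℝ) ≤ ((5 * m - I + J : ℤ) : ℝ) := by rw [← e3]; linarith [hs.1, ht.2]
  have e6 : 5 * m - I + J ≤ 1 := by exact_mod_cast e4
  have e7 : -1 ≤ 5 * m - I + J := by exact_mod_cast e5
  omega

/-- arithmetic of two edges of type `β` -/
theorem arithBB (I J m n : ℤ) (s t : ℝ) (hs : s ∈ Icc (0 : ℝ) 1) (ht : t ∈ Icc (0 : ℝ) 1)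
    (h1 : (I - 1 / 2 : ℝ) - (J - 1 / 2) = m + 2 * n)
    (h2 : (-1 / 2 + s : ℝ) - (-1 / 2 + t) = 2 * m - n) :
    (I - J) % 5 = 0 ∨ (I - J) % 5 = 2 ∨ (I - J) % 5 = 3 := by
  have e1 : I - J = m + 2 * n := by
    have : ((I - J : ℤ) : ℝ) = ((m + 2 * n : ℤ) : ℝ) := by push_cast; linarith
    exact_mod_cast this
  have e3 : s - t = ((2 * m - n : ℤ) : ℝ) := by push_cast; linarith
  have e4 : ((2 * m - n : ℤ) : ℝ) ≤ 1 := by rw [← e3]; linarith [hs.2, ht.1]
  have e5 : (-1 : ℝ) ≤ ((2 * m - n : ℤ) : ℝ) := by rw [← e3]; linarith [hs.1, ht.2]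
  have e6 : 2 * m - n ≤ 1 := by exact_mod_cast e4
  have e7 : -1 ≤ 2 * m - n := by exact_mod_cast e5
  omega

/-- arithmetic of two edges of different type -/
theorem arithAB (I J m n : ℤ) (s t : ℝ) (hs : s ∈ Icc (0 : ℝ) 1) (ht : t ∈ Icc (0 : ℝ) 1)
    (h1 : (I - 1 / 2 + s : ℝ) - (J - 1 / 2) = m + 2 * n)
    (h2 : (-1 / 2 : ℝ) - (-1 / 2 + t) = 2 * m - n) :
    (I - J) % 5 = 0 ∨ (I - J + 1) % 5 = 0 ∨ (I - J) % 5 = 2 ∨ (I - J + 1) % 5 = 2 := by
  have e3 : t = ((n - 2 * m : ℤ) : ℝ) := by push_cast; linarith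
  have e4 : s = ((m + 2 * n - I + J : ℤ) : ℝ) := by push_cast; linarith
  have a1 : n - 2 * m ≤ 1 := by have := ht.2; rw [e3] at this; exact_mod_cast this
  have a2 : 0 ≤ n - 2 * m := by have := ht.1; rw [e3] at this; exact_mod_cast this
  have a3 : m + 2 * n - I + J ≤ 1 := by have := hs.2; rw [e4] at this; exact_mod_cast this
  have a4 : 0 ≤ m + 2 * n - I + J := by have := hs.1; rw [e4] at this; exact_mod_cast this
  have b1 : n = 2 * m ∨ n = 2 * m + 1 := by omega
  have b2 : I = m + 2 * n + J ∨ I = m + 2 * n + J - 1 := by omega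
  rcases b1 with rfl | rfl <;> rcases b2 with rfl | rfl <;> omega

theorem combAA : ∀ i j k l : Fin 5, i < j → k < l → i ≠ k → i ≠ l → j ≠ k → j ≠ l →
    eTy i j = true → eTy k l = true →
    ¬ ((eIx i j - eIx k l) % 5 = 0 ∨ (eIx i j - eIx k l) % 5 = 1 ∨
      (eIx i j - eIx k l) % 5 = 4) := by decide

theorem combBB : ∀ i j k l : Fin 5, i < j → k < l → i ≠ k → i ≠ l → j ≠ k → j ≠ l →
    eTy i j = false → eTy k l = false →
    ¬ ((eIx i j - eIx k l) % 5 = 0 ∨ (eIx i j - eIx k l) % 5 = 2 ∨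
      (eIx i j - eIx k l) % 5 = 3) := by decide

theorem combAB : ∀ i j k l : Fin 5, i < j → k < l → i ≠ k → i ≠ l → j ≠ k → j ≠ l →
    eTy i j = true → eTy k l = false →
    ¬ ((eIx i j - eIx k l) % 5 = 0 ∨ (eIx i j - eIx k l + 1) % 5 = 0 ∨
      (eIx i j - eIx k l) % 5 = 2 ∨ (eIx i j - eIx k l + 1) % 5 = 2) := by decide

theorem edge_disj (i j k l : Fin 5) (hij : i < j) (hkl : k < l) (a : i ≠ k) (b : i ≠ l)
    (c : j ≠ k) (d : j ≠ l) (s : ℝ) (hs : s ∈ Icc (0 : ℝ) 1) (t : ℝ) (ht : t ∈ Icc (0 : ℝ) 1) :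
    edge i j s ≠ edge k l t := by
  intro h
  have hs' := eFl_mem i j s hs
  have ht' := eFl_mem k l t ht
  obtain ⟨m, n, h1, h2⟩ := zab_eq _ _ _ _ h
  by_cases e1 : eTy i j = true
  · by_cases e2 : eTy k l = true
    · simp only [eA, eB, e1, e2, if_true] at h1 h2
      exact combAA i j k l hij hkl a b c d e1 e2 (arithAA _ _ m n _ _ hs' ht' h1 h2)
    · have e2' : eTy k l = false := by simpa using e2
      simp only [eA, eB, e1, e2', if_true, if_false, Bool.false_eq_true] at h1 h2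
      exact combAB i j k l hij hkl a b c d e1 e2' (arithAB _ _ m n _ _ hs' ht' h1 h2)
  · have e1' : eTy i j = false := by simpa using e1
    by_cases e2 : eTy k l = true
    · simp only [eA, eB, e1', e2, if_true, if_false, Bool.false_eq_true] at h1 h2
      refine combAB k l i j hkl hij a.symm c.symm b.symm d.symm e2 e1'
        (arithAB _ _ (-m) (-n) _ _ ht' hs' ?_ ?_)
      · push_cast; linarith
      · push_cast; linarith
    · have e2' : eTy k l = false := by simpa using e2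
      simp only [eA, eB, e1', e2', if_false, Bool.false_eq_true] at h1 h2
      exact combBB i j k l hij hkl a b c d e1' e2' (arithBB _ _ m n _ _ hs' ht' h1 h2)

theorem edge_continuous (i j : Fin 5) : Continuous (edge i j) := by
  have hF : Continuous (eFl i j) := by unfold eFl; split_ifs <;> fun_prop
  have hA : Continuous (eA i j) := by unfold eA; split_ifs <;> fun_prop
  have hB : Continuous (eB i j) := by unfold eB; split_ifs <;> fun_prop
  unfold edge pr zab
  simp only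
  exact ((AddCircle.continuous_mk' 1).comp (by fun_prop)).prodMk
    ((AddCircle.continuous_mk' 1).comp (by fun_prop))

/-- For `α = x + 2y`, `β = 2x - y` the torus is `ℝ²/{(α,β) ∈ ℤ² | α + 2β ≡ 0 mod 5}`. `K₅` has the
vertices `i` with `(α,β) = (i - 1/2, -1/2)`, `i = 0..4`, the edges `i → i+1` in direction `α` and
`i → i+2` in direction `β`; so `α ∈ ℤ + 1/2` or `β ∈ ℤ + 1/2` on the edges, whereas
`|α|, |β| ≤ √5/10 < 1/2` on the closed disc. -/
theorem nonplanar (K : Set T) (hK : DDᶜ ⊆ K) :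
    ¬ ∃ f : K → EuclideanSpace ℝ (Fin 2), IsEmbedding f := by
  rintro ⟨f, hf⟩
  let φ : K → ℂ := fun u => ⟨f u 0, f u 1⟩
  have hφc : Continuous φ := by
    have h0 : Continuous fun u : K => f u 0 := by
      have := hf.continuous
      fun_prop
    have h1 : Continuous fun u : K => f u 1 := by
      have := hf.continuous
      fun_prop
    exact Complex.equivRealProdCLM.symm.continuous.comp (h0.prodMk h1)
  have hφi : Function.Injective φ := by
    intro u v h
    apply hf.injective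
    have h0 := congrArg Complex.re h
    have h1 := congrArg Complex.im h
    simp only [φ] at h0 h1
    ext q
    fin_cases q
    · exact h0
    · exact h1
  refine K5_paths (fun i => φ ⟨vtx i, hK (vtx_notMem i)⟩)
    (fun i j t => φ ⟨edge i j t, hK (edge_notMem i j t)⟩) ?_ ?_ ?_ ?_
  · intro i j _
    exact (hφc.comp ((edge_continuous i j).subtype_mk _)).continuousOn
  · intro i j h
    exact congrArg φ (Subtype.ext (edge_zero i j h))
  · intro i j h
    exact congrArg φ (Subtype.ext (edge_one i j h))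
  · intro i j k l hij hkl a b c d s hs t ht h
    exact edge_disj i j k l hij hkl a b c d s hs t ht (congrArg Subtype.val (hφi h))

end Q2T
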