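import Pool.Agent.Q2T.Tilde
import Pool.Agent.Q2T.Closure
import Pool.Agent.Q2T.Disc
import Pool.Agent.Q2T.NonPlanar

/-! Assembly. -/

set_option autoImplicit false

open Set Filter Topology

namespace Q2T

/-- the covering of the torus by the plane -/
noncomputable def prE (z : EuclideanSpace ℝ (Fin 2)) : T :=
  ((z 0 : AddCircle (1 : ℝ)), (z 1 : AddCircle (1 : ℝ)))

theorem prE_local : IsLocalHomeomorph prE := by
  have h1 : IsLocalHomeomorph ((↑) : ℝ → AddCircle (1 : ℝ)) :=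
    AddCircle.isLocalHomeomorph_coe (1 : ℝ)
  have h2 : IsLocalHomeomorph (Prod.map ((↑) : ℝ → AddCircle (1 : ℝ))
      ((↑) : ℝ → AddCircle (1 : ℝ))) := by
    intro x
    obtain ⟨e, he, hee⟩ := h1 x.1
    obtain ⟨e', he', hee'⟩ := h1 x.2
    refine ⟨e.prod e', ⟨he, he'⟩, ?_⟩
    funext p
    exact Prod.ext (congrFun hee p.1) (congrFun hee' p.2)
  have h3 : prE = (Prod.map ((↑) : ℝ → AddCircle (1 : ℝ)) ((↑) : ℝ → AddCircle (1 : ℝ))) ∘
      (Homeomorph.finTwoArrow.symm.symm : (Fin 2 → ℝ) ≃ₜ ℝ × ℝ) ∘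
      (EuclideanSpace.equiv (Fin 2) ℝ).toHomeomorph := by
    funext z
    rfl
  rw [h3]
  exact h2.comp ((Homeomorph.isLocalHomeomorph _).comp (Homeomorph.isLocalHomeomorph _))

theorem prE_surj : Function.Surjective prE := by
  rintro ⟨a, b⟩
  obtain ⟨x, rfl⟩ := QuotientAddGroup.mk_surjective a
  obtain ⟨y, rfl⟩ := QuotientAddGroup.mk_surjective b
  exact ⟨!₂[x, y], rfl⟩

/-- charts of the torus: local inverses of the covering `EuclideanSpace ℝ (Fin 2) → T` -/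
@[reducible] noncomputable def charted : ChartedSpace (EuclideanSpace ℝ (Fin 2)) T where
  atlas := Set.univ
  chartAt z := ((prE_local (prE_surj z).choose).choose).symm
  mem_chart_source z := by
    have h := (prE_local (prE_surj z).choose).choose_spec
    have h2 := (prE_surj z).choose_spec
    rw [OpenPartialHomeomorph.symm_source]
    have h3 := OpenPartialHomeomorph.map_source _ h.1
    rw [← h.2, h2] at h3
    exact h3
  chart_mem_atlas z := Set.mem_univ _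

theorem KK_closed : IsClosed KK :=
  isClosed_union (GG Lam) (GG_closed Lam Lam_closed) (fun _ hp => hp.1)

theorem KK_compact : IsCompact KK := KK_closed.isCompact

theorem not_closure : ((⟨EE (0, -1), xx_mem⟩, ⟨EE (0, 1), yy_mem⟩) : KK × KK) ∉
    closure {p : KK × KK | RK KK (p.1 : T) (p.2 : T)} := by
  intro hcl
  obtain ⟨Ox, hOx, hOx'⟩ := Ux_open (1 / 2)
  obtain ⟨Oy, hOy, hOy'⟩ := Uy_open (1 / 2)
  have hx0 : EE (0, -1) ∈ Ox := by
    have : EE (0, -1) ∈ Ux (1 / 2) ∩ KK :=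
      ⟨⟨(0, -1), ⟨⟨le_rfl, by norm_num⟩, by norm_num, by norm_num⟩, rfl⟩, xx_mem⟩
    rw [← hOx'] at this
    exact this.1
  have hy0 : EE (0, 1) ∈ Oy := by
    have : EE (0, 1) ∈ Uy (1 / 2) ∩ KK :=
      ⟨⟨(0, 1), ⟨⟨le_rfl, by norm_num⟩, by norm_num, by norm_num⟩, rfl⟩, yy_mem⟩
    rw [← hOy'] at this
    exact this.1
  have hopen : IsOpen {p : KK × KK | (p.1 : T) ∈ Ox ∧ (p.2 : T) ∈ Oy} :=
    (hOx.preimage (continuous_subtype_val.comp continuous_fst)).inter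
      (hOy.preimage (continuous_subtype_val.comp continuous_snd))
  obtain ⟨⟨x', y'⟩, ⟨h1, h2⟩, h3⟩ := mem_closure_iff.1 hcl _ hopen ⟨hx0, hy0⟩
  have hx' : (x' : T) ∈ Ux (1 / 2) := by
    have : (x' : T) ∈ Ox ∩ KK := ⟨h1, x'.2⟩
    rw [hOx'] at this
    exact this.1
  have hy' : (y' : T) ∈ Uy (1 / 2) := by
    have : (y' : T) ∈ Oy ∩ KK := ⟨h2, y'.2⟩
    rw [hOy'] at this
    exact this.1
  rcases h3 with h3 | ⟨h, hh, hxI, hyI, hlat, Q, Q', hQ, hcomp, hlim, hQc, hQ', hxQ, hyQ⟩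
  · obtain ⟨p, ⟨hp, _, hp2⟩, hpe⟩ := hx'
    obtain ⟨q, ⟨hq, _, hq2⟩, hqe⟩ := hy'
    have : p = q := EE_injOn hp hq (by rw [hpe, hqe]; exact h3)
    rw [this] at hp2
    linarith
  · have hsph := quad_sphere x' y' hx' hy' x'.2 y'.2 h hh Q Q' hQ (fun n => (hcomp n).1) hlim hQc
      hQ' hxQ hyQ
    refine no_disc h hh hsph (fun p hp hp0 hp1 => ?_)
    by_contra hcon
    exact hlat p hp hp0 hp1 (Or.inl hcon)

theorem main : ∃ (S : Type) (_ : MetricSpace S) (_ : CompactSpace S) (_ : ConnectedSpace S)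
    (_ : ChartedSpace (EuclideanSpace ℝ (Fin 2)) S) (K : Set S), IsCompact K ∧
    (¬ ∃ f : K → EuclideanSpace ℝ (Fin 2), IsEmbedding f) ∧
    ∃ x y : K, SurfFib.RTilde x y ∧ (x, y) ∉ closure {p : K × K | RK K (p.1 : S) (p.2 : S)} :=
  ⟨T, inferInstance, inferInstance, inferInstance, charted, KK, KK_compact,
    nonplanar KK subset_union_left, _, _, tilde, not_closure⟩

end Q2T
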