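import Pool.Agent.Q2T.Spiral1

/-! The spiral band, part 2. -/

set_option autoImplicit false

open Set Filter Topology

namespace Q2T

theorem sp2_pr_isOpenMap : IsOpenMap pr := by
  have h1 : IsOpenMap (fun x : ℝ => (x : AddCircle (1 : ℝ))) := QuotientAddGroup.isOpenMap_coe
  have h2 : IsOpenMap (Prod.map (fun x : ℝ => (x : AddCircle (1 : ℝ)))
      (fun x : ℝ => (x : AddCircle (1 : ℝ)))) := h1.prodMap h1
  exact h2.comp Complex.equivRealProdCLM.toHomeomorph.isOpenMap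

theorem sp2_cis_continuous : Continuous cis := by
  unfold cis
  fun_prop

theorem sp2_cis_norm (t : ℝ) : ‖cis t‖ = 1 := by
  unfold cis
  exact Complex.norm_exp_ofReal_mul_I _

theorem sp2_BB_closed : IsClosed BB := by
  have h1 : IsClosed {p : ℝ × ℝ | 0 ≤ p.1} := isClosed_le continuous_const continuous_fst
  have h2 : IsClosed {p : ℝ × ℝ | |p.2| ≤ 1} := isClosed_le continuous_snd.abs continuous_const
  exact h1.inter h2

theorem sp2_BB_den (p : ℝ × ℝ) (hp : p ∈ BB) : 1 < p.1 + p.2 / 4 + 2 := by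
  have h1 := hp.1
  have h2 := (abs_le.mp hp.2).1
  linarith

theorem sp2_E0_continuousOn : ContinuousOn E0 BB := by
  unfold E0
  apply ContinuousOn.mul
  · apply Complex.continuous_ofReal.comp_continuousOn
    apply ContinuousOn.div_const
    apply ContinuousOn.sub continuousOn_const
    apply ContinuousOn.div continuousOn_const (by fun_prop)
    intro p hp
    have := sp2_BB_den p hp
    linarith
  · exact (sp2_cis_continuous.comp continuous_fst).continuousOn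

theorem sp2_E0_norm (p : ℝ × ℝ) (hp : p ∈ BB) :
    ‖E0 p‖ = (1 - 1 / (p.1 + p.2 / 4 + 2)) / 10 := by
  have h1 := sp2_BB_den p hp
  unfold E0
  rw [norm_mul, sp2_cis_norm, mul_one, Complex.norm_real, Real.norm_eq_abs, abs_of_nonneg]
  have h2 : 1 / (p.1 + p.2 / 4 + 2) ≤ 1 := by
    rw [div_le_one (by linarith)]
    linarith
  linarith

theorem sp2_E0_norm_lt (p : ℝ × ℝ) (hp : p ∈ BB) : ‖E0 p‖ < 1 / 10 := by
  have h1 := sp2_BB_den p hp
  rw [sp2_E0_norm p hp]
  have h2 : 0 < 1 / (p.1 + p.2 / 4 + 2) := by positivity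
  linarith

/-- the part of the band in a smaller disc is bounded -/
theorem sp2_E0_bound (r : ℝ) (hr : r < 1 / 10) (p : ℝ × ℝ) (hp : p ∈ BB) (h : ‖E0 p‖ ≤ r) :
    p.1 ≤ 1 / (1 - 10 * r) := by
  have h1 := sp2_BB_den p hp
  rw [sp2_E0_norm p hp] at h
  have h3 : 0 < 1 - 10 * r := by linarith
  have h4 : 1 - 10 * r ≤ 1 / (p.1 + p.2 / 4 + 2) := by linarith
  have h5 : p.1 + p.2 / 4 + 2 ≤ 1 / (1 - 10 * r) := by
    rw [le_div_iff₀ h3]
    rw [le_div_iff₀ (by linarith)] at h4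
    linarith
  have h2 := (abs_le.mp hp.2).1
  linarith

theorem isClosed_union (C : Set (ℝ × ℝ)) (hC : IsClosed C) (hCB : C ⊆ BB) :
    IsClosed (DDᶜ ∪ EE '' C) := by
  rw [← isOpen_compl_iff, isOpen_iff_forall_mem_open]
  intro u hu
  rw [mem_compl_iff, mem_union, not_or, notMem_compl_iff] at hu
  obtain ⟨⟨w, hw, rfl⟩, hu2⟩ := hu
  rw [mem_ball_zero_iff] at hw
  obtain ⟨r, hr1, hr2⟩ := exists_between hw
  have hK1 : IsCompact (C ∩ {p | ‖E0 p‖ ≤ r}) := by
    have hcl : IsClosed (C ∩ {p | ‖E0 p‖ ≤ r}) := by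
      have := (sp2_E0_continuousOn.norm.mono hCB).preimage_isClosed_of_isClosed hC
        (isClosed_Iic (a := r))
      exact this
    refine IsCompact.of_isClosed_subset
      ((isCompact_Icc (a := (0 : ℝ)) (b := 1 / (1 - 10 * r))).prod
        (isCompact_Icc (a := (-1 : ℝ)) (b := 1))) hcl ?_
    rintro p ⟨hp1, hp2⟩
    have hB := hCB hp1
    exact ⟨⟨hB.1, sp2_E0_bound r hr2 p hB hp2⟩, abs_le.mp hB.2⟩
  have hK2 : IsClosed (EE '' (C ∩ {p | ‖E0 p‖ ≤ r})) :=
    (hK1.image_of_continuousOn (EE_continuousOn.mono (inter_subset_left.trans hCB))).isClosed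
  refine ⟨pr '' Metric.ball 0 r ∩ (EE '' (C ∩ {p | ‖E0 p‖ ≤ r}))ᶜ, ?_,
    (sp2_pr_isOpenMap _ Metric.isOpen_ball).inter hK2.isOpen_compl, ?_⟩
  · rintro v ⟨⟨w', hw', rfl⟩, hv⟩
    rw [mem_ball_zero_iff] at hw'
    rw [mem_compl_iff, mem_union, not_or, notMem_compl_iff]
    refine ⟨⟨w', ?_, rfl⟩, ?_⟩
    · rw [mem_ball_zero_iff]
      linarith
    · rintro ⟨p, hp, hpe⟩
      have hB := hCB hp
      have he : E0 p = w' := by
        apply pr_injOn _ _ hpe
        · rw [mem_closedBall_zero_iff]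
          exact (sp2_E0_norm_lt p hB).le
        · rw [mem_closedBall_zero_iff]
          linarith
      apply hv
      refine ⟨p, ⟨hp, ?_⟩, hpe⟩
      rw [mem_ofPred_eq, he]
      exact hw'.le
  · refine ⟨⟨w, ?_, rfl⟩, ?_⟩
    · rw [mem_ball_zero_iff]
      exact hr1
    · rintro ⟨p, hp, hpe⟩
      exact hu2 ⟨p, hp.1, hpe⟩

theorem sp2_mm_continuousOn : ContinuousOn mm BB := by
  unfold mm
  apply ContinuousOn.sup
  · exact continuous_snd.abs.continuousOn
  · apply ContinuousOn.sub continuousOn_const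
    apply ContinuousOn.div continuousOn_const (by fun_prop)
    intro p hp
    have := hp.1
    linarith

theorem GG_closed (Λ : Set ℝ) (hΛ : IsClosed Λ) : IsClosed (GG Λ) :=
  sp2_mm_continuousOn.preimage_isClosed_of_isClosed sp2_BB_closed hΛ

theorem sp2_cc_tendsto : Tendsto cc atTop (𝓝 1) := by
  have h1 : Tendsto (fun k : ℕ => 1 / ((k : ℝ) + 1)) atTop (𝓝 0) :=
    tendsto_one_div_add_atTop_nhds_zero_nat
  have h2 := (tendsto_add_atTop_iff_nat 1).mpr h1
  have h3 : Tendsto (fun k : ℕ => 1 - 1 / (((k + 1 : ℕ) : ℝ) + 1)) atTop (𝓝 (1 - 0)) :=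
    tendsto_const_nhds.sub h2
  rw [sub_zero] at h3
  refine h3.congr fun k => ?_
  unfold cc
  push_cast
  ring_nf

theorem Lam_closed : IsClosed Lam :=
  sp2_cc_tendsto.isCompact_insert_range.isClosed

theorem sp2_cc_lt_one (k : ℕ) : cc k < 1 := by
  unfold cc
  have : (0 : ℝ) < 1 / ((k : ℝ) + 2) := by positivity
  linarith

theorem sp2_cc_inj {k l : ℕ} (h : cc k = cc l) : k = l := by
  unfold cc at h
  have hk : ((k : ℝ) + 2) ≠ 0 := by positivity
  have hl : ((l : ℝ) + 2) ≠ 0 := by positivity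
  have h2 : 1 / ((k : ℝ) + 2) = 1 / ((l : ℝ) + 2) := by linarith
  rw [div_eq_div_iff hk hl] at h2
  have h3 : (k : ℝ) = l := by linarith
  exact_mod_cast h3

theorem Lam_diff_closed (k : ℕ) : IsClosed (Lam \ {cc k}) := by
  have h1 : Tendsto (fun n => if n = k then cc (k + 1) else cc n) atTop (𝓝 1) := by
    refine sp2_cc_tendsto.congr' ?_
    filter_upwards [eventually_gt_atTop k] with n hn
    rw [if_neg (by omega)]
  have h2 := h1.isCompact_insert_range.isClosed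
  have h3 : Lam \ {cc k} = insert 1 (range fun n => if n = k then cc (k + 1) else cc n) := by
    ext x
    constructor
    · rintro ⟨hx1, hx2⟩
      rcases hx1 with rfl | ⟨n, rfl⟩
      · exact Or.inl rfl
      · refine Or.inr ⟨n, ?_⟩
        have hnk : n ≠ k := by
          rintro rfl
          exact hx2 rfl
        simp only [if_neg hnk]
    · rintro (rfl | ⟨n, rfl⟩)
      · refine ⟨Or.inl rfl, ?_⟩
        intro h
        rw [mem_singleton_iff] at h
        have := sp2_cc_lt_one k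
        linarith
      · by_cases hnk : n = k
        · simp only [if_pos hnk]
          refine ⟨Or.inr ⟨k + 1, rfl⟩, ?_⟩
          intro h
          rw [mem_singleton_iff] at h
          have := sp2_cc_inj h
          omega
        · simp only [if_neg hnk]
          refine ⟨Or.inr ⟨n, rfl⟩, ?_⟩
          intro h
          rw [mem_singleton_iff] at h
          exact hnk (sp2_cc_inj h)
  rw [h3]
  exact h2

theorem sp2_GG_arc_le (k : ℕ) (p : ℝ × ℝ) (hp : p ∈ GG {cc k}) : p.1 ≤ (k : ℝ) + 1 := by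
  obtain ⟨hB, hm⟩ := hp
  rw [mem_singleton_iff] at hm
  have h1 : 1 - 1 / (p.1 + 1) ≤ cc k := by
    rw [← hm]
    exact le_max_right _ _
  unfold cc at h1
  have h0 := hB.1
  have h2 : 1 / ((k : ℝ) + 2) ≤ 1 / (p.1 + 1) := by linarith
  rw [div_le_div_iff₀ (by positivity) (by linarith)] at h2
  linarith

theorem GG_arc_compact (k : ℕ) : IsCompact (GG {cc k}) := by
  refine IsCompact.of_isClosed_subset
    ((isCompact_Icc (a := (0 : ℝ)) (b := (k : ℝ) + 1)).prod
      (isCompact_Icc (a := (-1 : ℝ)) (b := 1))) (GG_closed _ isClosed_singleton) ?_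
  intro p hp
  exact ⟨⟨hp.1.1, sp2_GG_arc_le k p hp⟩, abs_le.mp hp.1.2⟩

theorem Ux_open (δ : ℝ) : ∃ O : Set T, IsOpen O ∧ O ∩ KK = Ux δ ∩ KK := by
  have hC : IsClosed (BB ∩ {p : ℝ × ℝ | δ ≤ p.1 ∨ -1 + δ ≤ p.2}) := by
    apply sp2_BB_closed.inter
    exact (isClosed_le continuous_const continuous_fst).union
      (isClosed_le continuous_const continuous_snd)
  have h := isClosed_union _ hC inter_subset_left
  refine ⟨_, h.isOpen_compl, ?_⟩
  ext u
  constructor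
  · rintro ⟨hu1, hu2⟩
    refine ⟨?_, hu2⟩
    rw [mem_compl_iff, mem_union, not_or] at hu1
    rcases hu2 with hu2 | ⟨p, hp, rfl⟩
    · exact absurd hu2 hu1.1
    · refine ⟨p, ⟨hp.1, ?_, ?_⟩, rfl⟩
      · by_contra hc
        exact hu1.2 ⟨p, ⟨hp.1, Or.inl (not_lt.mp hc)⟩, rfl⟩
      · by_contra hc
        exact hu1.2 ⟨p, ⟨hp.1, Or.inr (not_lt.mp hc)⟩, rfl⟩
  · rintro ⟨⟨p, ⟨hp1, hp2, hp3⟩, rfl⟩, hu2⟩
    refine ⟨?_, hu2⟩
    rw [mem_compl_iff, mem_union, not_or]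
    refine ⟨fun h => h (EE_mem p hp1), ?_⟩
    rintro ⟨q, ⟨hq1, hq2⟩, hqe⟩
    have := EE_injOn hq1 hp1 hqe
    subst this
    rcases hq2 with hq2 | hq2
    · exact absurd hp2 (not_lt.mpr hq2)
    · exact absurd hp3 (not_lt.mpr hq2)

theorem Uy_open (δ : ℝ) : ∃ O : Set T, IsOpen O ∧ O ∩ KK = Uy δ ∩ KK := by
  have hC : IsClosed (BB ∩ {p : ℝ × ℝ | δ ≤ p.1 ∨ p.2 ≤ 1 - δ}) := by
    apply sp2_BB_closed.inter
    exact (isClosed_le continuous_const continuous_fst).union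
      (isClosed_le continuous_snd continuous_const)
  have h := isClosed_union _ hC inter_subset_left
  refine ⟨_, h.isOpen_compl, ?_⟩
  ext u
  constructor
  · rintro ⟨hu1, hu2⟩
    refine ⟨?_, hu2⟩
    rw [mem_compl_iff, mem_union, not_or] at hu1
    rcases hu2 with hu2 | ⟨p, hp, rfl⟩
    · exact absurd hu2 hu1.1
    · refine ⟨p, ⟨hp.1, ?_, ?_⟩, rfl⟩
      · by_contra hc
        exact hu1.2 ⟨p, ⟨hp.1, Or.inl (not_lt.mp hc)⟩, rfl⟩
      · by_contra hc
        exact hu1.2 ⟨p, ⟨hp.1, Or.inr (not_lt.mp hc)⟩, rfl⟩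
  · rintro ⟨⟨p, ⟨hp1, hp2, hp3⟩, rfl⟩, hu2⟩
    refine ⟨?_, hu2⟩
    rw [mem_compl_iff, mem_union, not_or]
    refine ⟨fun h => h (EE_mem p hp1), ?_⟩
    rintro ⟨q, ⟨hq1, hq2⟩, hqe⟩
    have := EE_injOn hq1 hp1 hqe
    subst this
    rcases hq2 with hq2 | hq2
    · exact absurd hp2 (not_lt.mpr hq2)
    · exact absurd hp3 (not_lt.mpr hq2)

theorem arc_open (k : ℕ) : ∃ O : Set T, IsOpen O ∧ O ∩ KK = EE '' GG {cc k} := by
  have hC := GG_closed _ (Lam_diff_closed k)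
  have h := isClosed_union _ hC (fun p hp => hp.1)
  refine ⟨_, h.isOpen_compl, ?_⟩
  ext u
  constructor
  · rintro ⟨hu1, hu2⟩
    rw [mem_compl_iff, mem_union, not_or] at hu1
    rcases hu2 with hu2 | ⟨p, hp, rfl⟩
    · exact absurd hu2 hu1.1
    · refine ⟨p, ⟨hp.1, ?_⟩, rfl⟩
      by_contra hc
      exact hu1.2 ⟨p, ⟨hp.1, hp.2, hc⟩, rfl⟩
  · rintro ⟨p, ⟨hp1, hp2⟩, rfl⟩
    rw [mem_singleton_iff] at hp2
    refine ⟨?_, Or.inr ⟨p, ⟨hp1, ?_⟩, rfl⟩⟩
    · rw [mem_compl_iff, mem_union, not_or]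
      refine ⟨fun h => h (EE_mem p hp1), ?_⟩
      rintro ⟨q, ⟨hq1, hq2, hq3⟩, hqe⟩
      have := EE_injOn hq1 hp1 hqe
      subst this
      exact hq3 hp2
    · rw [hp2]
      exact Or.inr ⟨k, rfl⟩

end Q2T
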