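import Pool.Agent.Q2T.Spiral1
import Pool.Agent.Q2T.Spiral2

/-! The spiral band (`Spiral1`, `Spiral2`). -/
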