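import Pool.Agent.Q2T.Defs

/-! The spiral band, part 1. -/

set_option autoImplicit false

open Set Filter Topology

namespace Q2T

theorem pr_continuous : Continuous pr := by
  unfold pr
  exact ((AddCircle.continuous_mk' (1 : ℝ)).comp Complex.continuous_re).prodMk
    ((AddCircle.continuous_mk' (1 : ℝ)).comp Complex.continuous_im)

theorem coe_inj_aux {a b : ℝ} (ha : |a| ≤ 1 / 10) (hb : |b| ≤ 1 / 10)
    (h : (a : AddCircle (1 : ℝ)) = b) : a = b := by
  have : Fact ((0 : ℝ) < 1) := ⟨one_pos⟩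
  rw [abs_le] at ha hb
  exact (AddCircle.coe_eq_coe_iff_of_mem_Ico (p := (1 : ℝ)) (a := -1 / 2)
    ⟨by linarith [ha.1], by linarith [ha.2]⟩ ⟨by linarith [hb.1], by linarith [hb.2]⟩).1 h

/-- `pr` is injective on the disc -/
theorem pr_injOn : InjOn pr (Metric.closedBall 0 (1 / 10)) := by
  intro z hz w hw h
  rw [mem_closedBall_zero_iff] at hz hw
  have h1 : (z.re : AddCircle (1 : ℝ)) = w.re := congrArg Prod.fst h
  have h2 : (z.im : AddCircle (1 : ℝ)) = w.im := congrArg Prod.snd h
  apply Complex.ext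
  · exact coe_inj_aux ((Complex.abs_re_le_norm z).trans hz)
      ((Complex.abs_re_le_norm w).trans hw) h1
  · exact coe_inj_aux ((Complex.abs_im_le_norm z).trans hz)
      ((Complex.abs_im_le_norm w).trans hw) h2

theorem pr_isOpenMap : IsOpenMap pr := by
  have h1 : IsOpenMap (fun x : ℝ => (x : AddCircle (1 : ℝ))) := QuotientAddGroup.isOpenMap_coe
  have h2 := (h1.prodMap h1).comp Complex.equivRealProdCLM.toHomeomorph.isOpenMap
  exact h2

theorem isOpen_DD : IsOpen DD := pr_isOpenMap _ Metric.isOpen_ball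

theorem band_pos {p : ℝ × ℝ} (hp : p ∈ BB) : 7 / 4 ≤ p.1 + p.2 / 4 + 2 := by
  have h1 := hp.1
  have h2 := (abs_le.1 hp.2).1
  linarith

theorem cis_continuous : Continuous cis := by
  unfold cis
  fun_prop

theorem E0_continuousOn : ContinuousOn E0 BB := by
  unfold E0
  apply ContinuousOn.mul
  · apply Complex.continuous_ofReal.comp_continuousOn
    apply ContinuousOn.div_const
    apply ContinuousOn.sub continuousOn_const
    apply ContinuousOn.div continuousOn_const
    · fun_prop
    · intro p hp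
      have := band_pos hp
      linarith
  · exact (cis_continuous.comp continuous_fst).continuousOn

theorem EE_continuousOn : ContinuousOn EE BB := pr_continuous.comp_continuousOn E0_continuousOn

theorem norm_cis (t : ℝ) : ‖cis t‖ = 1 := by
  unfold cis
  exact Complex.norm_exp_ofReal_mul_I _

theorem norm_E0 {p : ℝ × ℝ} (hp : p ∈ BB) : ‖E0 p‖ = (1 - 1 / (p.1 + p.2 / 4 + 2)) / 10 := by
  have h1 := band_pos hp
  have h2 : 1 / (p.1 + p.2 / 4 + 2) ≤ 1 := by
    rw [div_le_one (by linarith)]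
    linarith
  unfold E0
  rw [norm_mul, norm_cis, mul_one, Complex.norm_real, Real.norm_eq_abs, abs_of_nonneg]
  apply div_nonneg _ (by norm_num)
  linarith

theorem norm_E0_lt {p : ℝ × ℝ} (hp : p ∈ BB) : ‖E0 p‖ < 1 / 10 := by
  rw [norm_E0 hp]
  have h1 := band_pos hp
  have h2 : 0 < 1 / (p.1 + p.2 / 4 + 2) := by
    apply div_pos one_pos
    linarith
  linarith

theorem EE_injOn : InjOn EE BB := by
  intro p hp q hq h
  have h0 : E0 p = E0 q := pr_injOn (mem_closedBall_zero_iff.2 (norm_E0_lt hp).le)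
    (mem_closedBall_zero_iff.2 (norm_E0_lt hq).le) h
  have hp1 := band_pos hp
  have hq1 := band_pos hq
  have hn : ‖E0 p‖ = ‖E0 q‖ := by rw [h0]
  rw [norm_E0 hp, norm_E0 hq] at hn
  have hu : p.1 + p.2 / 4 + 2 = q.1 + q.2 / 4 + 2 := by
    have h3 : 1 / (p.1 + p.2 / 4 + 2) = 1 / (q.1 + q.2 / 4 + 2) := by linarith
    have h4 := congrArg (fun x : ℝ => x⁻¹) h3
    simpa using h4
  have hc : cis p.1 = cis q.1 := by
    have h5 : (((1 - 1 / (p.1 + p.2 / 4 + 2)) / 10 : ℝ) : ℂ) ≠ 0 := by
      rw [Complex.ofReal_ne_zero]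
      have h2 : 1 / (p.1 + p.2 / 4 + 2) < 1 := by
        rw [div_lt_one (by linarith)]
        linarith
      have : 0 < (1 - 1 / (p.1 + p.2 / 4 + 2)) / 10 := by
        apply div_pos _ (by norm_num)
        linarith
      exact this.ne'
    unfold E0 at h0
    rw [← hu] at h0
    exact mul_left_cancel₀ h5 h0
  have ht : p.1 = q.1 := by
    unfold cis at hc
    obtain ⟨n, hn⟩ := Complex.exp_eq_exp_iff_exists_int.1 hc
    have h6 : (2 * Real.pi * p.1 : ℝ) = 2 * Real.pi * q.1 + n * (2 * Real.pi) := by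
      have h7 : ((2 * Real.pi * p.1 : ℝ) : ℂ) * Complex.I =
          ((2 * Real.pi * q.1 + n * (2 * Real.pi) : ℝ) : ℂ) * Complex.I := by
        rw [hn]
        push_cast
        ring
      have h8 := mul_right_cancel₀ Complex.I_ne_zero h7
      exact_mod_cast h8
    have h9 : p.1 = q.1 + n := by
      have := Real.pi_pos
      have h10 : (2 * Real.pi) * p.1 = (2 * Real.pi) * (q.1 + n) := by
        rw [h6]
        ring
      exact mul_left_cancel₀ (by positivity) h10
    have a1 := (abs_le.1 hp.2)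
    have a2 := (abs_le.1 hq.2)
    have h11 : (n : ℝ) < 1 := by linarith [a1.1, a2.2]
    have h12 : (-1 : ℝ) < n := by linarith [a1.2, a2.1]
    have h13 : n = 0 := by
      have h14 : n < 1 := by exact_mod_cast h11
      have h15 : -1 < n := by exact_mod_cast h12
      omega
    rw [h9, h13]
    simp
  exact Prod.ext ht (by linarith)

theorem EE_mem (p : ℝ × ℝ) (hp : p ∈ BB) : EE p ∈ DD :=
  ⟨E0 p, mem_ball_zero_iff.2 (norm_E0_lt hp), rfl⟩

end Q2T
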