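import Pool.Agent.Q2T.Spiral

/-! The pair `(x, y)` is in `R̃`. -/

set_option autoImplicit false

open Set Filter Topology

namespace Q2T

theorem xx_mem : EE (0, -1) ∈ KK := by
  refine Or.inr ⟨(0, -1), ⟨⟨le_rfl, by norm_num⟩, ?_⟩, rfl⟩
  have h : mm (0, -1) = 1 := by norm_num [mm]
  rw [h]
  exact mem_insert _ _

theorem yy_mem : EE (0, 1) ∈ KK := by
  refine Or.inr ⟨(0, 1), ⟨⟨le_rfl, by norm_num⟩, ?_⟩, rfl⟩
  have h : mm (0, 1) = 1 := by norm_num [mm]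
  rw [h]
  exact mem_insert _ _

namespace TildeAux

theorem h_le {t : ℝ} (ht : 0 ≤ t) (k : ℕ) : 1 - 1 / (t + 1) ≤ cc k ↔ t ≤ (k : ℝ) + 1 := by
  unfold cc
  rw [sub_le_sub_iff_left, one_div_le_one_div (by positivity) (by positivity)]
  constructor <;> intro h <;> linarith

theorem h_ge {t : ℝ} (ht : 0 ≤ t) (k : ℕ) : cc k ≤ 1 - 1 / (t + 1) ↔ (k : ℝ) + 1 ≤ t := by
  unfold cc
  rw [sub_le_sub_iff_left, one_div_le_one_div (by positivity) (by positivity)]
  constructor <;> intro h <;> linarith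

theorem cc_pos (k : ℕ) : 0 < cc k := by
  unfold cc
  have h : 1 / ((k : ℝ) + 2) ≤ 1 / 2 :=
    one_div_le_one_div_of_le (by norm_num) (by have : (0 : ℝ) ≤ k := Nat.cast_nonneg k; linarith)
  linarith

theorem cc_lt (k : ℕ) : cc k < 1 := by
  unfold cc
  have : 0 < 1 / ((k : ℝ) + 2) := by positivity
  linarith

theorem cc_inj {k l : ℕ} (h : cc k = cc l) : k = l := by
  unfold cc at h
  have h1 : 1 / ((k : ℝ) + 2) = 1 / ((l : ℝ) + 2) := by linarith
  have h2 : (k : ℝ) + 2 = (l : ℝ) + 2 := by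
    have h3 : (0 : ℝ) < (k : ℝ) + 2 := by positivity
    have h4 : (0 : ℝ) < (l : ℝ) + 2 := by positivity
    rw [div_eq_div_iff h3.ne' h4.ne'] at h1
    linarith
  exact_mod_cast (add_right_cancel h2)

/-- the U-shaped arc -/
theorem arc_iff (k : ℕ) (p : ℝ × ℝ) : p ∈ GG {cc k} ↔
    (0 ≤ p.1 ∧ p.1 ≤ (k : ℝ) + 1 ∧ |p.2| = cc k) ∨ (p.1 = (k : ℝ) + 1 ∧ |p.2| ≤ cc k) := by
  constructor
  · rintro ⟨⟨h0, -⟩, hm⟩
    rw [mem_singleton_iff] at hm
    have h1 : |p.2| ≤ cc k := by rw [← hm]; exact le_max_left _ _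
    have h2 : 1 - 1 / (p.1 + 1) ≤ cc k := by rw [← hm]; exact le_max_right _ _
    have h3 := (h_le h0 k).1 h2
    rcases h1.eq_or_lt with h4 | h4
    · exact Or.inl ⟨h0, h3, h4⟩
    · right
      refine ⟨le_antisymm h3 ((h_ge h0 k).1 ?_), h1⟩
      by_contra h5
      have h6 : mm p < cc k := max_lt h4 (not_le.1 h5)
      exact h6.ne hm
  · rintro (⟨h0, h1, h2⟩ | ⟨h1, h2⟩)
    · refine ⟨⟨h0, by rw [h2]; exact (cc_lt k).le⟩, ?_⟩
      rw [mem_singleton_iff]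
      unfold mm
      rw [h2, max_eq_left ((h_le h0 k).2 h1)]
    · have h0 : 0 ≤ p.1 := by rw [h1]; positivity
      refine ⟨⟨h0, h2.trans (cc_lt k).le⟩, ?_⟩
      rw [mem_singleton_iff]
      unfold mm
      have h3 : 1 - 1 / (p.1 + 1) = cc k := le_antisymm ((h_le h0 k).2 h1.le) ((h_ge h0 k).2 h1.ge)
      rw [h3, max_eq_right h2]

theorem arc_sub_BB (k : ℕ) : GG {cc k} ⊆ BB := fun _ hp => hp.1

theorem arc_sub_KK (k : ℕ) : EE '' GG {cc k} ⊆ KK := by
  rintro _ ⟨p, hp, rfl⟩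
  refine Or.inr ⟨p, ⟨hp.1, ?_⟩, rfl⟩
  have h := hp.2
  rw [mem_singleton_iff] at h
  rw [h]
  exact mem_insert_of_mem _ (mem_range_self k)

/-- the arc without its ends -/
def AA (δ : ℝ) (k : ℕ) : Set (ℝ × ℝ) := {p | p ∈ GG {cc k} ∧ (δ ≤ p.1 ∨ |p.2| ≤ 1 - δ)}

theorem AA_eq {δ : ℝ} (hδ0 : 0 < δ) (hδ1 : δ ≤ 1) {k : ℕ} (hk : 1 - δ < cc k) :
    AA δ k = ((fun t : ℝ => (t, -cc k)) '' Icc δ ((k : ℝ) + 1) ∪
      (fun s : ℝ => ((k : ℝ) + 1, s)) '' Icc (-cc k) (cc k)) ∪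
      (fun t : ℝ => (t, cc k)) '' Icc δ ((k : ℝ) + 1) := by
  have hk0 : (0 : ℝ) ≤ k := Nat.cast_nonneg k
  have hc := cc_pos k
  ext ⟨t, s⟩
  constructor
  · rintro ⟨h1, h2⟩
    rcases (arc_iff k (t, s)).1 h1 with ⟨h3, h4, h5⟩ | ⟨h3, h4⟩
    · simp only at h2 h3 h4 h5
      have h6 : δ ≤ t := by
        rcases h2 with h2 | h2
        · exact h2
        · rw [h5] at h2
          linarith
      rcases abs_cases s with ⟨h7, -⟩ | ⟨h7, -⟩
      · right
        exact ⟨t, ⟨h6, h4⟩, by rw [← h5, h7]⟩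
      · left; left
        exact ⟨t, ⟨h6, h4⟩, by rw [← h5, h7, neg_neg]⟩
    · simp only at h3 h4
      left; right
      exact ⟨s, abs_le.1 h4, by rw [h3]⟩
  · rintro ((⟨u, hu, h⟩ | ⟨u, hu, h⟩) | ⟨u, hu, h⟩)
    · simp only [Prod.mk.injEq] at h
      obtain ⟨rfl, rfl⟩ := h
      refine ⟨(arc_iff k _).2 (Or.inl ⟨hδ0.le.trans hu.1, hu.2, ?_⟩), Or.inl hu.1⟩
      simp only
      rw [abs_neg, abs_of_pos hc]
    · simp only [Prod.mk.injEq] at h
      obtain ⟨rfl, rfl⟩ := h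
      refine ⟨(arc_iff k _).2 (Or.inr ⟨rfl, abs_le.2 hu⟩), Or.inl ?_⟩
      simp only
      linarith
    · simp only [Prod.mk.injEq] at h
      obtain ⟨rfl, rfl⟩ := h
      refine ⟨(arc_iff k _).2 (Or.inl ⟨hδ0.le.trans hu.1, hu.2, ?_⟩), Or.inl hu.1⟩
      simp only
      rw [abs_of_pos hc]

theorem AA_conn {δ : ℝ} (hδ0 : 0 < δ) (hδ1 : δ ≤ 1) {k : ℕ} (hk : 1 - δ < cc k) :
    IsPreconnected (AA δ k) := by
  have hk0 : (0 : ℝ) ≤ k := Nat.cast_nonneg k
  have hc := cc_pos k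
  rw [AA_eq hδ0 hδ1 hk]
  have h1 : IsPreconnected ((fun t : ℝ => (t, -cc k)) '' Icc δ ((k : ℝ) + 1)) :=
    isPreconnected_Icc.image _ (by fun_prop)
  have h2 : IsPreconnected ((fun s : ℝ => ((k : ℝ) + 1, s)) '' Icc (-cc k) (cc k)) :=
    isPreconnected_Icc.image _ (by fun_prop)
  have h3 : IsPreconnected ((fun t : ℝ => (t, cc k)) '' Icc δ ((k : ℝ) + 1)) :=
    isPreconnected_Icc.image _ (by fun_prop)
  have h12 := IsPreconnected.union ((k : ℝ) + 1, -cc k)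
    (s := (fun t : ℝ => (t, -cc k)) '' Icc δ ((k : ℝ) + 1))
    (t := (fun s : ℝ => ((k : ℝ) + 1, s)) '' Icc (-cc k) (cc k))
    ⟨(k : ℝ) + 1, ⟨by linarith, le_rfl⟩, rfl⟩ ⟨-cc k, ⟨le_rfl, by linarith⟩, rfl⟩ h1 h2
  exact IsPreconnected.union ((k : ℝ) + 1, cc k)
    (Or.inr ⟨cc k, ⟨by linarith, le_rfl⟩, rfl⟩) ⟨(k : ℝ) + 1, ⟨by linarith, le_rfl⟩, rfl⟩ h12 h3

theorem Ux_iff {δ : ℝ} {p : ℝ × ℝ} (hp : p ∈ BB) :
    EE p ∈ Ux δ ↔ p.1 < δ ∧ p.2 < -1 + δ := by
  constructor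
  · rintro ⟨q, ⟨hq, h1, h2⟩, he⟩
    rw [← EE_injOn hq hp he]
    exact ⟨h1, h2⟩
  · rintro ⟨h1, h2⟩
    exact ⟨p, ⟨hp, h1, h2⟩, rfl⟩

theorem Uy_iff {δ : ℝ} {p : ℝ × ℝ} (hp : p ∈ BB) :
    EE p ∈ Uy δ ↔ p.1 < δ ∧ 1 - δ < p.2 := by
  constructor
  · rintro ⟨q, ⟨hq, h1, h2⟩, he⟩
    rw [← EE_injOn hq hp he]
    exact ⟨h1, h2⟩
  · rintro ⟨h1, h2⟩
    exact ⟨p, ⟨hp, h1, h2⟩, rfl⟩

theorem open_pre {A : Set T} (h : ∃ O : Set T, IsOpen O ∧ O ∩ KK = A ∩ KK) :
    IsOpen ((Subtype.val : KK → T) ⁻¹' A) := by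
  obtain ⟨O, hO, hA⟩ := h
  have h1 : (Subtype.val : KK → T) ⁻¹' A = (Subtype.val : KK → T) ⁻¹' O := by
    ext z
    constructor
    · intro hz
      have : z.1 ∈ A ∩ KK := ⟨hz, z.2⟩
      rw [← hA] at this
      exact this.1
    · intro hz
      have : z.1 ∈ O ∩ KK := ⟨hz, z.2⟩
      rw [hA] at this
      exact this.1
  rw [h1]
  exact hO.preimage continuous_subtype_val

theorem closure_inter (δ : ℕ → ℝ) (A : ℝ → Set (ℝ × ℝ))
    (hA : ∀ r, IsCompact (A r)) (hAB : ∀ r, A r ⊆ BB) (p₀ : ℝ × ℝ)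
    (hp₀ : ∀ p, (∀ n, p ∈ A (δ n)) → p = p₀) (h₀ : EE p₀ ∈ KK) (U : ℕ → Set KK)
    (hU : ∀ n, ∀ z ∈ U n, z.1 ∈ EE '' A (δ n)) (hxU : ∀ n, (⟨EE p₀, h₀⟩ : KK) ∈ U n) :
    (⋂ n, closure (U n)) = {(⟨EE p₀, h₀⟩ : KK)} := by
  ext z
  rw [mem_iInter, mem_singleton_iff]
  constructor
  · intro hz
    have h1 : ∀ n, z.1 ∈ EE '' A (δ n) := by
      intro n
      have h2 : IsClosed ((Subtype.val : KK → T) ⁻¹' (EE '' A (δ n))) :=
        (((hA _).image_of_continuousOn (EE_continuousOn.mono (hAB _))).isClosed).preimage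
          continuous_subtype_val
      exact (closure_minimal (hU n) h2) (hz n)
    obtain ⟨p, hp, hpz⟩ := h1 0
    have h2 : p = p₀ := by
      refine hp₀ p fun n => ?_
      obtain ⟨q, hq, hqz⟩ := h1 n
      rwa [EE_injOn (hAB _ hp) (hAB _ hq) (hpz.trans hqz.symm)]
    rw [h2] at hpz
    exact Subtype.ext hpz.symm
  · rintro rfl n
    exact subset_closure (hxU n)

end TildeAux

open TildeAux

/-- `U n = Ux δ ∩ KK`, `V n = Uy δ ∩ KK`, `δ = 1/(n+2)`; for `cc k > 1 - δ` the set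
`EE '' {p ∈ GG {cc k} | δ ≤ p.1 ∨ |p.2| ≤ 1 - δ}` is connected, closed and open in the complement of
`U n ∪ V n`, and contains `EE (δ, ∓cc k)`, which are in the frontiers of `U n` and `V n`. -/
theorem tilde : SurfFib.RTilde (⟨EE (0, -1), xx_mem⟩ : KK) ⟨EE (0, 1), yy_mem⟩ := by
  right
  obtain ⟨δ, hδ⟩ : ∃ δ : ℕ → ℝ, ∀ n, δ n = 1 / ((n : ℝ) + 2) := ⟨_, fun _ => rfl⟩
  have hδ0 : ∀ n, 0 < δ n := fun n => by rw [hδ]; positivity
  have hδ1 : ∀ n, δ n ≤ 1 / 2 := fun n => by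
    rw [hδ]
    exact one_div_le_one_div_of_le (by norm_num)
      (by have : (0 : ℝ) ≤ n := Nat.cast_nonneg n; linarith)
  have hδanti : Antitone δ := fun m n hmn => by
    rw [hδ, hδ]
    have : (m : ℝ) ≤ n := by exact_mod_cast hmn
    exact one_div_le_one_div_of_le (by positivity) (by linarith)
  have hδlim : Tendsto δ atTop (𝓝 0) := by
    have h1 : δ = fun n : ℕ => 1 / ((n : ℝ) + 2) := funext hδ
    rw [h1]
    simp only [one_div]
    exact (tendsto_atTop_add_const_right _ _ tendsto_natCast_atTop_atTop).inv_tendsto_atTop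
  have hUop : ∀ n, IsOpen ((Subtype.val : KK → T) ⁻¹' Ux (δ n)) := fun n => open_pre (Ux_open _)
  have hVop : ∀ n, IsOpen ((Subtype.val : KK → T) ⁻¹' Uy (δ n)) := fun n => open_pre (Uy_open _)
  have hBx : ((0 : ℝ), (-1 : ℝ)) ∈ BB := ⟨le_rfl, by norm_num⟩
  have hBy : ((0 : ℝ), (1 : ℝ)) ∈ BB := ⟨le_rfl, by norm_num⟩
  have hxU : ∀ n, (⟨EE (0, -1), xx_mem⟩ : KK) ∈ (Subtype.val : KK → T) ⁻¹' Ux (δ n) := fun n =>
    (Ux_iff hBx).2 ⟨hδ0 n, by have := hδ0 n; simp only; linarith⟩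
  have hyV : ∀ n, (⟨EE (0, 1), yy_mem⟩ : KK) ∈ (Subtype.val : KK → T) ⁻¹' Uy (δ n) := fun n =>
    (Uy_iff hBy).2 ⟨hδ0 n, by have := hδ0 n; simp only; linarith⟩
  refine ⟨fun n => Subtype.val ⁻¹' Ux (δ n), fun n => Subtype.val ⁻¹' Uy (δ n), ?_, ?_,
    fun n => (hUop n).mem_nhds (hxU n), fun n => (hVop n).mem_nhds (hyV n), ?_, ?_, ?_⟩
  · rintro m n hmn z ⟨p, ⟨h1, h2, h3⟩, h4⟩
    have := hδanti hmn
    exact ⟨p, ⟨h1, by linarith, by linarith⟩, h4⟩
  · rintro m n hmn z ⟨p, ⟨h1, h2, h3⟩, h4⟩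
    have := hδanti hmn
    exact ⟨p, ⟨h1, by linarith, by linarith⟩, h4⟩
  · refine closure_inter δ (fun r => Icc 0 r ×ˢ Icc (-1) (min 1 (-1 + r))) ?_ ?_ (0, -1) ?_ _ _
      ?_ hxU
    · exact fun r => isCompact_Icc.prod isCompact_Icc
    · rintro r ⟨t, s⟩ ⟨h1, h2⟩
      exact ⟨h1.1, abs_le.2 ⟨h2.1, h2.2.trans (min_le_left _ _)⟩⟩
    · rintro ⟨t, s⟩ hp
      have h1 : t ≤ 0 := ge_of_tendsto' hδlim fun n => (hp n).1.2
      have h2 : s ≤ -1 + 0 := ge_of_tendsto' (hδlim.const_add (-1)) fun n =>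
        (hp n).2.2.trans (min_le_right _ _)
      have h3 : 0 ≤ t := (hp 0).1.1
      have h4 : -1 ≤ s := (hp 0).2.1
      rw [Prod.mk.injEq]
      exact ⟨le_antisymm h1 h3, le_antisymm (by linarith) h4⟩
    · rintro n z ⟨p, ⟨h1, h2, h3⟩, h4⟩
      have h5 := abs_le.1 h1.2
      exact ⟨p, ⟨⟨h1.1, h2.le⟩, ⟨h5.1, le_min h5.2 h3.le⟩⟩, h4⟩
  · refine closure_inter δ (fun r => Icc 0 r ×ˢ Icc (max (-1) (1 - r)) 1) ?_ ?_ (0, 1) ?_ _ _
      ?_ hyV
    · exact fun r => isCompact_Icc.prod isCompact_Icc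
    · rintro r ⟨t, s⟩ ⟨h1, h2⟩
      exact ⟨h1.1, abs_le.2 ⟨(le_max_left _ _).trans h2.1, h2.2⟩⟩
    · rintro ⟨t, s⟩ hp
      have h1 : t ≤ 0 := ge_of_tendsto' hδlim fun n => (hp n).1.2
      have h2 : 1 - 0 ≤ s := le_of_tendsto' (hδlim.const_sub 1) fun n =>
        (le_max_right _ _).trans (hp n).2.1
      have h3 : 0 ≤ t := (hp 0).1.1
      have h4 : s ≤ 1 := (hp 0).2.2
      rw [Prod.mk.injEq]
      exact ⟨le_antisymm h1 h3, le_antisymm h4 (by linarith)⟩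
    · rintro n z ⟨p, ⟨h1, h2, h3⟩, h4⟩
      have h5 := abs_le.1 h1.2
      exact ⟨p, ⟨⟨h1.1, h2.le⟩, ⟨max_le h5.1 h3.le, h5.2⟩⟩, h4⟩
  · intro n
    obtain ⟨r, hr⟩ : ∃ r : ℝ, r = δ n := ⟨_, rfl⟩
    have hr0 : 0 < r := by rw [hr]; exact hδ0 n
    have hr1 : r ≤ 1 / 2 := by rw [hr]; exact hδ1 n
    have hUo := hUop n
    have hVo := hVop n
    rw [← hr] at hUo hVo
    show (SurfFib.crossing ((Subtype.val : KK → T) ⁻¹' Ux (δ n))
      ((Subtype.val : KK → T) ⁻¹' Uy (δ n))).Infinite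
    rw [← hr]
    -- the levels
    have hlev : ∀ k : ℕ, 1 - r < cc (k + n + 1) := by
      intro k
      rw [hr, hδ]
      unfold cc
      have h1 : 1 / (((k + n + 1 : ℕ) : ℝ) + 2) < 1 / ((n : ℝ) + 2) := by
        apply one_div_lt_one_div_of_lt (by positivity)
        push_cast
        have : (0 : ℝ) ≤ k := Nat.cast_nonneg k
        linarith
      linarith
    -- the component
    have hmain : ∀ k : ℕ, 1 - r < cc k → (Subtype.val : KK → T) ⁻¹' (EE '' AA r k) ∈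
        SurfFib.crossing ((Subtype.val : KK → T) ⁻¹' Ux r) ((Subtype.val : KK → T) ⁻¹' Uy r) := by
      intro k hk
      have hk0 : (0 : ℝ) ≤ k := Nat.cast_nonneg k
      have hc := cc_pos k
      have hc1 := cc_lt k
      have hAB : AA r k ⊆ BB := fun p hp => hp.1.1
      have hAK : EE '' AA r k ⊆ KK := (image_mono fun p hp => hp.1).trans (arc_sub_KK k)
      have hmem1 : (r, -cc k) ∈ AA r k := by
        refine ⟨(arc_iff k _).2 (Or.inl ⟨hr0.le, ?_, ?_⟩), Or.inl le_rfl⟩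
        · simp only; linarith
        · simp only; rw [abs_neg, abs_of_pos hc]
      have hmem2 : (r, cc k) ∈ AA r k := by
        refine ⟨(arc_iff k _).2 (Or.inl ⟨hr0.le, ?_, ?_⟩), Or.inl le_rfl⟩
        · simp only; linarith
        · simp only; rw [abs_of_pos hc]
      -- the set is preconnected
      have hpre : IsPreconnected ((Subtype.val : KK → T) ⁻¹' (EE '' AA r k)) := by
        rw [← IsInducing.subtypeVal.isPreconnected_image, Subtype.image_preimage_coe,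
          inter_eq_self_of_subset_right hAK]
        exact (AA_conn hr0 (by linarith) hk).image _ (EE_continuousOn.mono hAB)
      -- the arc is clopen
      have hclopen : IsClopen ((Subtype.val : KK → T) ⁻¹' (EE '' GG {cc k})) := by
        refine ⟨?_, open_pre ?_⟩
        · exact (((GG_arc_compact k).image_of_continuousOn
            (EE_continuousOn.mono (arc_sub_BB k))).isClosed).preimage continuous_subtype_val
        · obtain ⟨O, hO, h1⟩ := arc_open k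
          exact ⟨O, hO, by rw [h1, inter_eq_self_of_subset_left (arc_sub_KK k)]⟩
      -- inside the complement
      have hF : ∀ p ∈ AA r k, EE p ∉ Ux r ∧ EE p ∉ Uy r := by
        intro p hp
        rw [Ux_iff (hAB hp), Uy_iff (hAB hp)]
        rcases hp.2 with h1 | h1
        · exact ⟨fun h => absurd h.1 (not_lt.2 h1), fun h => absurd h.1 (not_lt.2 h1)⟩
        · have h2 := abs_le.1 h1
          exact ⟨fun h => by linarith [h.2], fun h => by linarith [h.2]⟩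
      refine ⟨⟨⟨EE (r, -cc k), hAK ⟨_, hmem1, rfl⟩⟩, ?_, ?_⟩, ?_, ?_⟩
      · rintro (h | h)
        · exact (hF _ hmem1).1 h
        · exact (hF _ hmem1).2 h
      · apply Subset.antisymm
        · refine hpre.subset_connectedComponentIn ⟨_, hmem1, rfl⟩ ?_
          rintro z ⟨p, hp, hpz⟩ (h | h)
          · rw [mem_preimage, ← hpz] at h
            exact (hF _ hp).1 h
          · rw [mem_preimage, ← hpz] at h
            exact (hF _ hp).2 h
        · intro z hz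
          have h1 := connectedComponentIn_subset _ _ hz
          have h2 := isPreconnected_connectedComponentIn.subset_isClopen hclopen
            ⟨_, mem_connectedComponentIn (show (⟨EE (r, -cc k), hAK ⟨_, hmem1, rfl⟩⟩ : KK) ∈
              ((Subtype.val : KK → T) ⁻¹' Ux r ∪ (Subtype.val : KK → T) ⁻¹' Uy r)ᶜ by
                rintro (h | h)
                · exact (hF _ hmem1).1 h
                · exact (hF _ hmem1).2 h), ⟨_, hmem1.1, rfl⟩⟩ hz
          obtain ⟨p, hp, hpz⟩ := h2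
          refine ⟨p, ⟨hp, ?_⟩, hpz⟩
          by_contra hcon
          push Not at hcon
          obtain ⟨h3, h4⟩ := hcon
          apply h1
          rcases (arc_iff k p).1 hp with ⟨h5, h6, h7⟩ | ⟨h5, h6⟩
          · rcases abs_cases p.2 with ⟨h8, -⟩ | ⟨h8, -⟩
            · right
              rw [mem_preimage, ← hpz]
              exact (Uy_iff hp.1).2 ⟨h3, by linarith⟩
            · left
              rw [mem_preimage, ← hpz]
              exact (Ux_iff hp.1).2 ⟨h3, by linarith⟩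
          · linarith
      · refine ⟨⟨EE (r, -cc k), hAK ⟨_, hmem1, rfl⟩⟩, ⟨_, hmem1, rfl⟩, ?_⟩
        rw [hUo.frontier_eq]
        refine ⟨?_, (hF _ hmem1).1⟩
        rw [IsInducing.subtypeVal.closure_eq_preimage_closure_image, mem_preimage,
          Subtype.image_preimage_coe]
        have h1 : EE (r, -cc k) ∈ closure (EE '' (Ico 0 r ×ˢ {-cc k})) := by
          refine ContinuousWithinAt.mem_closure_image
            ((EE_continuousOn _ (hAB hmem1)).mono ?_) ?_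
          · rintro ⟨t, s⟩ ⟨h2, h3⟩
            rw [mem_singleton_iff] at h3
            simp only at h2 h3
            refine ⟨h2.1, ?_⟩
            rw [h3, abs_neg, abs_of_pos hc]
            exact hc1.le
          · rw [closure_prod_eq, closure_Ico hr0.ne, closure_singleton]
            exact ⟨⟨hr0.le, le_rfl⟩, rfl⟩
        refine closure_mono ?_ h1
        rintro _ ⟨⟨t, s⟩, ⟨h2, h3⟩, rfl⟩
        rw [mem_singleton_iff] at h3
        simp only at h2 h3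
        have h4 : (t, s) ∈ GG {cc k} := by
          refine (arc_iff k _).2 (Or.inl ⟨h2.1, ?_, ?_⟩)
          · simp only; linarith [h2.2]
          · simp only; rw [h3, abs_neg, abs_of_pos hc]
        refine ⟨arc_sub_KK k ⟨_, h4, rfl⟩, (Ux_iff h4.1).2 ⟨h2.2, ?_⟩⟩
        simp only
        linarith
      · refine ⟨⟨EE (r, cc k), hAK ⟨_, hmem2, rfl⟩⟩, ⟨_, hmem2, rfl⟩, ?_⟩
        rw [hVo.frontier_eq]
        refine ⟨?_, (hF _ hmem2).2⟩
        rw [IsInducing.subtypeVal.closure_eq_preimage_closure_image, mem_preimage,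
          Subtype.image_preimage_coe]
        have h1 : EE (r, cc k) ∈ closure (EE '' (Ico 0 r ×ˢ {cc k})) := by
          refine ContinuousWithinAt.mem_closure_image
            ((EE_continuousOn _ (hAB hmem2)).mono ?_) ?_
          · rintro ⟨t, s⟩ ⟨h2, h3⟩
            rw [mem_singleton_iff] at h3
            simp only at h2 h3
            refine ⟨h2.1, ?_⟩
            rw [h3, abs_of_pos hc]
            exact hc1.le
          · rw [closure_prod_eq, closure_Ico hr0.ne, closure_singleton]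
            exact ⟨⟨hr0.le, le_rfl⟩, rfl⟩
        refine closure_mono ?_ h1
        rintro _ ⟨⟨t, s⟩, ⟨h2, h3⟩, rfl⟩
        rw [mem_singleton_iff] at h3
        simp only at h2 h3
        have h4 : (t, s) ∈ GG {cc k} := by
          refine (arc_iff k _).2 (Or.inl ⟨h2.1, ?_, ?_⟩)
          · simp only; linarith [h2.2]
          · simp only; rw [h3, abs_of_pos hc]
        refine ⟨arc_sub_KK k ⟨_, h4, rfl⟩, (Uy_iff h4.1).2 ⟨h2.2, ?_⟩⟩
        simp only
        linarith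
    refine Set.infinite_of_injective_forall_mem
      (f := fun k : ℕ => (Subtype.val : KK → T) ⁻¹' (EE '' AA r (k + n + 1))) ?_
      (fun k => hmain _ (hlev k))
    intro k l hkl
    simp only at hkl
    have hc := cc_pos (k + n + 1)
    have hmem : (r, cc (k + n + 1)) ∈ AA r (k + n + 1) := by
      refine ⟨(arc_iff _ _).2 (Or.inl ⟨hr0.le, ?_, ?_⟩), Or.inl le_rfl⟩
      · have : (0 : ℝ) ≤ ((k + n + 1 : ℕ) : ℝ) := Nat.cast_nonneg _
        simp only; linarith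
      · simp only; rw [abs_of_pos hc]
    have h1 : (⟨EE (r, cc (k + n + 1)), arc_sub_KK _ ⟨_, hmem.1, rfl⟩⟩ : KK) ∈
        (Subtype.val : KK → T) ⁻¹' (EE '' AA r (k + n + 1)) := ⟨_, hmem, rfl⟩
    rw [hkl] at h1
    obtain ⟨p, hp, hpe⟩ := h1
    have h2 : p = (r, cc (k + n + 1)) := EE_injOn hp.1.1 hmem.1.1 hpe
    have h3 := hp.1.2
    rw [h2, mem_singleton_iff] at h3
    have h4 := hmem.1.2
    rw [mem_singleton_iff] at h4
    have h5 := cc_inj (h4.symm.trans h3)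
    omega

end Q2T
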